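import Pool.Agent.FBM.G.Man

/-! # FBM block G: local expressions in patches -/

open Set Function MeasureTheory Filter Topology
open scoped Manifold ContDiff RealInnerProductSpace

namespace Pool.Agent.FBM

variable {n k : ℕ} [NeZero k] {S : Type} [TopologicalSpace S] {x : S → Euc n}

/-- the parameter domain of a patch -/
def Pat.T (A : Pat n k S x) : Set (Euc k) := (𝓡∂ k).symm ⁻¹' A.e.target ∩ range (𝓡∂ k)

/-- the parametrisation of a patch -/
noncomputable def Pat.F (A : Pat n k S x) : Euc k → S := A.e.symm ∘ (𝓡∂ k).symm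

/-- the Gram matrix of a map -/
noncomputable def gramU (U : Euc k → Euc n) (q : Euc k) : Matrix (Fin k) (Fin k) ℝ :=
  Matrix.of fun i j => ⟪fderiv ℝ U q (bs i), fderiv ℝ U q (bs j)⟫

theorem Pat.T_nhds (A : Pat n k S x) {q : Euc k} (hq : q ∈ A.T) : A.T ∈ 𝓝[range (𝓡∂ k)] q := by
  unfold Pat.T
  rw [inter_comm]
  exact inter_mem self_mem_nhdsWithin (mem_nhdsWithin_of_mem_nhds
    ((A.e.open_target.preimage (𝓡∂ k).continuous_symm).mem_nhds hq.1))

theorem Pat.smooth' (A : Pat n k S x) {q : Euc k} (hq : q ∈ A.T) : ContDiffAt ℝ ∞ A.U q := by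
  have := A.smooth _ hq.1
  rwa [val_symm hq.2] at this

theorem Pat.inj' (A : Pat n k S x) {q : Euc k} (hq : q ∈ A.T) : Injective (fderiv ℝ A.U q) := by
  have := A.inj _ hq.1
  rwa [val_symm hq.2] at this

theorem Pat.eq' (A : Pat n k S x) {q : Euc k} (hq : q ∈ A.T) : A.U q = x (A.F q) := by
  have := A.eq _ hq.1
  rwa [val_symm hq.2] at this

theorem uniq_range {q : Euc k} (hq : q ∈ range (𝓡∂ k)) :
    UniqueDiffWithinAt ℝ (range (𝓡∂ k)) q := (𝓡∂ k).uniqueDiffOn q hq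

section Chart

variable [ChartedSpace (EuclideanHalfSpace k) S]

theorem Pat.target_eq (A : Pat n k S x) {p : S}
    (h : chartAt (EuclideanHalfSpace k) p = A.e) : (extChartAt (𝓡∂ k) p).target = A.T := by
  rw [extChartAt_target, h]
  rfl

theorem Pat.symm_eq (A : Pat n k S x) {p : S}
    (h : chartAt (EuclideanHalfSpace k) p = A.e) :
    ((extChartAt (𝓡∂ k) p).symm : Euc k → S) = A.F := by
  rw [extChartAt_coe_symm, h]
  rfl

theorem Pat.loc_eq (A : Pat n k S x) {p : S}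
    (h : chartAt (EuclideanHalfSpace k) p = A.e) {q : Euc k} (hq : q ∈ A.T) :
    loc x p =ᶠ[𝓝[range (𝓡∂ k)] q] A.U := by
  filter_upwards [A.T_nhds hq] with y hy
  rw [A.eq' hy, loc, A.symm_eq h]
  rfl

theorem Pat.D1_eq (A : Pat n k S x) {p : S}
    (h : chartAt (EuclideanHalfSpace k) p = A.e) {q : Euc k} (hq : q ∈ A.T) :
    fderivWithin ℝ (loc x p) (range (𝓡∂ k)) q = fderiv ℝ A.U q := by
  have hne : (∞ : WithTop ℕ∞) ≠ 0 := by simp
  rw [(A.loc_eq h hq).fderivWithin_eq_of_mem hq.2]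
  exact ((A.smooth' hq).differentiableAt hne).fderivWithin (uniq_range hq.2)

theorem Pat.d1_eq (A : Pat n k S x) {p : S}
    (h : chartAt (EuclideanHalfSpace k) p = A.e) {q : Euc k} (hq : q ∈ A.T) (v : Euc k) :
    d1 x p q v = fderiv ℝ A.U q v := by
  unfold d1
  rw [A.D1_eq h hq]

theorem Pat.d2_eq (A : Pat n k S x) {p : S}
    (h : chartAt (EuclideanHalfSpace k) p = A.e) {q : Euc k} (hq : q ∈ A.T) (v w : Euc k) :
    d2 x p q v w = fderiv ℝ (fderiv ℝ A.U) q w v := by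
  have hne : (∞ : WithTop ℕ∞) ≠ 0 := by simp
  have h1 : (fun y => d1 x p y v) =ᶠ[𝓝[range (𝓡∂ k)] q] fun y => fderiv ℝ A.U y v := by
    filter_upwards [A.T_nhds hq] with y hy
    exact A.d1_eq h hy v
  have hd : HasFDerivAt (fderiv ℝ A.U) (fderiv ℝ (fderiv ℝ A.U) q) q :=
    (((A.smooth' hq).fderiv_right (m := ∞) (by simp)).differentiableAt hne).hasFDerivAt
  have h2 : HasFDerivAt (fun y => fderiv ℝ A.U y v)
      ((ContinuousLinearMap.apply ℝ (Euc n) v).comp (fderiv ℝ (fderiv ℝ A.U) q)) q :=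
    (ContinuousLinearMap.apply ℝ (Euc n) v).hasFDerivAt.comp q hd
  unfold d2
  rw [h1.fderivWithin_eq_of_mem hq.2, h2.hasFDerivWithinAt.fderivWithin (uniq_range hq.2)]
  rfl

theorem Pat.gram_eq (A : Pat n k S x) {p : S}
    (h : chartAt (EuclideanHalfSpace k) p = A.e) {q : Euc k} (hq : q ∈ A.T) :
    gram x p q = gramU A.U q := by
  ext i j
  simp only [gram, gramU, Matrix.of_apply, A.d1_eq h hq, ip]

theorem Pat.contMDiffAt (A : Pat n k S x) {p : S}
    (h : chartAt (EuclideanHalfSpace k) p = A.e) (hx : Continuous x) :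
    ContMDiffAt (𝓡∂ k) 𝓘(ℝ, Euc n) ∞ x p := by
  rw [contMDiffAt_iff]
  refine ⟨hx.continuousAt, ?_⟩
  have hq : extChartAt (𝓡∂ k) p p ∈ A.T := by
    rw [← A.target_eq h]
    exact mem_extChartAt_target p
  have h2 : (extChartAt 𝓘(ℝ, Euc n) (x p)) ∘ x ∘ (extChartAt (𝓡∂ k) p).symm = loc x p := by
    rfl
  rw [h2]
  exact ((A.smooth' hq).contDiffWithinAt).congr_of_eventuallyEq (A.loc_eq h hq)
    ((A.loc_eq h hq).self_of_nhdsWithin hq.2)

end Chart

end Pool.Agent.FBM
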