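import Pool.Agent.FBM.G.Patch
import Pool.Agent.FBM.G.Man2

/-! # FBM block G: patches from complex parametrisations -/

open Set Function MeasureTheory Filter Topology
open scoped Manifold ContDiff RealInnerProductSpace

namespace Pool.Agent.FBM

/-- the linear identification `v ↦ v 1 + i v 0` -/
noncomputable def lwL : Euc 2 →L[ℝ] ℂ :=
  (EuclideanSpace.proj (1 : Fin 2) : Euc 2 →L[ℝ] ℝ).smulRight (1 : ℂ) +
    (EuclideanSpace.proj (0 : Fin 2) : Euc 2 →L[ℝ] ℝ).smulRight Complex.I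

theorem lwL_apply (v : Euc 2) : lwL v = (v 1 : ℂ) + (v 0 : ℂ) * Complex.I := by
  simp [lwL]

@[simp] theorem lwL_re (v : Euc 2) : (lwL v).re = v 1 := by simp [lwL_apply]

@[simp] theorem lwL_im (v : Euc 2) : (lwL v).im = v 0 := by simp [lwL_apply]

/-- the complex coordinate -/
noncomputable def cw (c : ℝ) (y : Euc 2) : ℂ := lwL y - (c : ℂ) * Complex.I

@[simp] theorem cw_re (c : ℝ) (y : Euc 2) : (cw c y).re = y 1 := by simp [cw]

@[simp] theorem cw_im (c : ℝ) (y : Euc 2) : (cw c y).im = y 0 - c := by simp [cw]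

/-- its inverse -/
noncomputable def iw (c : ℝ) (w : ℂ) : Euc 2 := !₂[w.im + c, w.re]

@[simp] theorem iw_0 (c : ℝ) (w : ℂ) : iw c w 0 = w.im + c := by simp [iw]

@[simp] theorem iw_1 (c : ℝ) (w : ℂ) : iw c w 1 = w.re := by simp [iw]

theorem cw_iw (c : ℝ) (w : ℂ) : cw c (iw c w) = w := by
  apply Complex.ext <;> simp

theorem iw_cw (c : ℝ) (y : Euc 2) : iw c (cw c y) = y := by
  ext i
  fin_cases i
  · simp
  · simp

theorem cw_hasFDerivAt (c : ℝ) (y : Euc 2) : HasFDerivAt (cw c) lwL y :=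
  lwL.hasFDerivAt.sub_const _

theorem cw_cont (c : ℝ) : Continuous (cw c) := by
  unfold cw
  fun_prop

theorem iw_cont (c : ℝ) : Continuous (iw c) := by
  have : iw c = (fun w : ℂ => (WithLp.toLp 2 ![w.im + c, w.re] : Euc 2)) := rfl
  rw [this]
  refine (PiLp.continuous_toLp 2 _).comp ?_
  refine continuous_pi fun i => ?_
  fin_cases i
  · exact Complex.continuous_im.add continuous_const
  · exact Complex.continuous_re

/-- the real map given by holomorphic functions -/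
noncomputable def reU (H : Fin 3 → ℂ → ℂ) (c : ℝ) (y : Euc 2) : Euc 3 :=
  WithLp.toLp 2 fun j => (H j (cw c y)).re

@[simp] theorem reU_apply (H : Fin 3 → ℂ → ℂ) (c : ℝ) (y : Euc 2) (j : Fin 3) :
    reU H c y j = (H j (cw c y)).re := rfl

theorem reU_comp_hasFDerivAt {H : Fin 3 → ℂ → ℂ} {c : ℝ} {q : Euc 2} (j : Fin 3)
    (h : DifferentiableAt ℂ (H j) (cw c q)) :
    HasFDerivAt (fun y => reU H c y j)
      (Complex.reCLM.comp ((deriv (H j) (cw c q)) • lwL)) q := by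
  have h1 : HasFDerivAt (H j)
      ((ContinuousLinearMap.toSpanSingleton ℂ (deriv (H j) (cw c q))).restrictScalars ℝ)
      (cw c q) := h.hasDerivAt.hasFDerivAt.restrictScalars ℝ
  have h2 := Complex.reCLM.hasFDerivAt.comp q (h1.comp q (cw_hasFDerivAt c q))
  refine h2.congr_fderiv ?_
  ext1 v
  simp [mul_comm]

theorem reU_differentiableAt {H : Fin 3 → ℂ → ℂ} {c : ℝ} {q : Euc 2}
    (h : ∀ j, DifferentiableAt ℂ (H j) (cw c q)) : DifferentiableAt ℝ (reU H c) q := by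
  rw [differentiableAt_euclidean]
  intro j
  exact (reU_comp_hasFDerivAt j (h j)).differentiableAt

theorem reU_fderiv {H : Fin 3 → ℂ → ℂ} {c : ℝ} {q : Euc 2}
    (h : ∀ j, DifferentiableAt ℂ (H j) (cw c q)) (v : Euc 2) (j : Fin 3) :
    fderiv ℝ (reU H c) q v j = (deriv (H j) (cw c q) * lwL v).re := by
  have h1 : HasFDerivAt (fun y => reU H c y j)
      ((EuclideanSpace.proj j : Euc 3 →L[ℝ] ℝ).comp (fderiv ℝ (reU H c) q)) q :=
    (EuclideanSpace.proj j : Euc 3 →L[ℝ] ℝ).hasFDerivAt.comp q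
      (reU_differentiableAt h).hasFDerivAt
  have h2 := h1.unique (reU_comp_hasFDerivAt j (h j))
  have h3 := congrArg (fun L : Euc 2 →L[ℝ] ℝ => L v) h2
  simpa using h3

theorem reU_contDiffAt {H : Fin 3 → ℂ → ℂ} {c : ℝ} {q : Euc 2} {O : Set ℂ} (hO : IsOpen O)
    (h : ∀ j, DifferentiableOn ℂ (H j) O) (hq : cw c q ∈ O) :
    ContDiffAt ℝ ∞ (reU H c) q := by
  rw [contDiffAt_euclidean]
  intro j
  have h1 : ContDiffAt ℝ ∞ (H j) (cw c q) :=
    (((h j).contDiffOn hO (n := ∞)).contDiffAt (hO.mem_nhds hq)).restrict_scalars ℝ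
  have h2 : ContDiffAt ℝ ∞ (cw c) q := by
    have : ContDiff ℝ ∞ (cw c) := lwL.contDiff.sub contDiff_const
    exact this.contDiffAt
  exact Complex.reCLM.contDiff.contDiffAt.comp q (h1.comp q h2)

theorem inner_lwL (v w : Euc 2) : ⟪v, w⟫ = (lwL v * (starRingEnd ℂ) (lwL w)).re := by
  simp [PiLp.inner_apply, Fin.sum_univ_two, lwL_apply]
  ring

theorem reU_inner {H : Fin 3 → ℂ → ℂ} {c : ℝ} {q : Euc 2}
    (h : ∀ j, DifferentiableAt ℂ (H j) (cw c q)) (h0 : ∑ j, deriv (H j) (cw c q) ^ 2 = 0)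
    (v w : Euc 2) : ⟪fderiv ℝ (reU H c) q v, fderiv ℝ (reU H c) q w⟫
      = (∑ j, ‖deriv (H j) (cw c q)‖ ^ 2) / 2 * ⟪v, w⟫ := by
  have h1 : ⟪fderiv ℝ (reU H c) q v, fderiv ℝ (reU H c) q w⟫
      = ∑ j, (deriv (H j) (cw c q) * lwL v).re * (deriv (H j) (cw c q) * lwL w).re := by
    rw [PiLp.inner_apply]
    refine Finset.sum_congr rfl fun j _ => ?_
    rw [reU_fderiv h, reU_fderiv h]
    simp [mul_comm]
  rw [h1, inner_lwL]
  set a : Fin 3 → ℂ := fun j => deriv (H j) (cw c q)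
  set l := lwL v
  set m := lwL w
  have h2 : ∀ j, (a j * l).re * (a j * m).re
      = (‖a j‖ ^ 2 / 2) * (l * (starRingEnd ℂ) m).re + (a j ^ 2 * (l * m)).re / 2 := by
    intro j
    rw [← Complex.normSq_eq_norm_sq, Complex.normSq_apply]
    simp [pow_two]
    ring
  have h3 : ∑ j, (a j ^ 2 * (l * m)).re = 0 := by
    rw [← Complex.re_sum, ← Finset.sum_mul, h0]
    simp
  have h4 : ∑ j, (a j * l).re * (a j * m).re
      = ∑ j, ((‖a j‖ ^ 2 / 2) * (l * (starRingEnd ℂ) m).re + (a j ^ 2 * (l * m)).re / 2) :=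
    Finset.sum_congr rfl fun j _ => h2 j
  change ∑ j, (a j * l).re * (a j * m).re = _
  rw [h4, Finset.sum_add_distrib, ← Finset.sum_div, h3, ← Finset.sum_mul, ← Finset.sum_div,
    zero_div, add_zero]

end Pool.Agent.FBM
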