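import Pool.Agent.FBM.G.Geo

/-!
# FBM block G: the interface between the construction of the surface (G2) and the generic part
(G3: manifold structure, free boundary minimality, volume measures)
-/

open Set Function MeasureTheory
open scoped Manifold ContDiff RealInnerProductSpace

namespace Pool.Agent.FBM

/-- A parametrised piece of the surface `x : S → ℝ^3`: the parameter `w` runs through the
relatively open subset `V` of the closed half plane `{-c ≤ Im w}`; the point with parameter `w` is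
`φ w`, and `x (φ w) = Re G w`.  `K` is a compact set containing `V` on which `φ` is continuous and
injective (so that the inverse of `φ` is continuous).  The boundary of the half plane is mapped to
the free boundary.  (For pieces without boundary choose `c` large.) -/
structure PData (S : Type) [TopologicalSpace S] (x : S → Euc 3) where
  c : ℝ
  K : Set ℂ
  V : Set ℂ
  O : Set ℂ
  φ : ℂ → S
  G : Fin 3 → ℂ → ℂ
  Kc : IsCompact K
  Kh : ∀ w ∈ K, -c ≤ w.im
  VK : V ⊆ K
  Oo : IsOpen O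
  VO : V = O ∩ {w | -c ≤ w.im}
  cont : ContinuousOn φ K
  inj : InjOn φ K
  img : IsOpen (φ '' V)
  an : ∀ j, DifferentiableOn ℂ (G j) O
  conf : ∀ w ∈ V, ∑ j, deriv (G j) w ^ 2 = 0
  imm : ∀ w ∈ V, ∃ j, deriv (G j) w ≠ 0
  eq : ∀ w ∈ V, ∀ j, x (φ w) j = (G j w).re
  bd : ∀ w ∈ V, w.im = -c → ∑ j, (G j w).re ^ 2 = 1 ∧
    ∃ κ : ℝ, ∀ j, (deriv (G j) w).im = κ * (G j w).re

/-- the area density of a piece -/
noncomputable def PData.rho {S : Type} [TopologicalSpace S] {x : S → Euc 3} (P : PData S x)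
    (w : ℂ) : ℝ := (∑ j, ‖deriv (P.G j) w‖ ^ 2) / 2

/-- a conformal map given by a map smooth in a neighbourhood of the closed ball -/
structure ConfExt (f : Euc 3 → Euc 3) (lam : Euc 3 → ℝ) : Prop where
  ext : ∃ Ω, IsOpen Ω ∧ Metric.closedBall (0 : Euc 3) 1 ⊆ Ω ∧ ContDiffOn ℝ ∞ f Ω
  pos : ∀ z ∈ Metric.closedBall (0 : Euc 3) 1, 0 < lam z
  conf : ∀ z ∈ Metric.closedBall (0 : Euc 3) 1, ∀ v w : Euc 3,
    ⟪fderiv ℝ f z v, fderiv ℝ f z w⟫ = lam z ^ 2 * ⟪v, w⟫

/-- `μ`, `ν` are the volume measures of `x` and `f ∘ x`, with their formulas in all pieces. -/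
structure Vols {S : Type} [TopologicalSpace S] [MeasurableSpace S]
    [ChartedSpace (EuclideanHalfSpace 2) S] (x : S → Euc 3) (f : Euc 3 → Euc 3)
    (lam : Euc 3 → ℝ) (μ ν : Measure S) : Prop where
  vol : IsVolume 2 x μ
  vol' : IsVolume 2 (f ∘ x) ν
  eq : ∀ P : PData S x, ∀ A ⊆ P.V, MeasurableSet A →
    μ (P.φ '' A) = ∫⁻ w in A, ENNReal.ofReal (P.rho w)
  eq' : ∀ P : PData S x, ∀ A ⊆ P.V, MeasurableSet A →
    ν (P.φ '' A) = ∫⁻ w in A, ENNReal.ofReal (lam (x (P.φ w)) ^ 2 * P.rho w)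

/-- G3: a compact Hausdorff space covered by pieces is a manifold with boundary, `x` is an
immersed free boundary minimal surface and the volume measures exist. -/
def Stmt_G3 : Prop := ∀ (S : Type) [TopologicalSpace S] [T2Space S] [CompactSpace S]
  [MeasurableSpace S] [BorelSpace S] (x : S → Euc 3), Continuous x → (∀ p, ‖x p‖ ≤ 1) →
  (∀ p, ∃ P : PData S x, p ∈ P.φ '' P.V) →
  ∃ _ : ChartedSpace (EuclideanHalfSpace 2) S, IsManifold (𝓡∂ 2) ∞ S ∧ IsFBMS 2 x ∧
    ∀ (f : Euc 3 → Euc 3) (lam : Euc 3 → ℝ), ConfExt f lam →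
      ∃ μ ν : Measure S, Vols x f lam μ ν

end Pool.Agent.FBM
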