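import Pool.Agent.FBM.Defs
import Pool.Agent.FBM.G.Patch
import Pool.Agent.Lib_helper60.FB.Inv

/-! # FBM block G6: the conformal diffeomorphisms of the ball -/

open Set Function MeasureTheory Filter Topology
open scoped Manifold ContDiff RealInnerProductSpace ENNReal
open Pool.Agent.Lib_helper60.FB

namespace Pool.Agent.FBM

/-- the centre `e_2 / c` of the inversion -/
noncomputable def cen (c : ℝ) : Euc 3 := c⁻¹ • (bs 2 : Euc 3)

/-- the conformal map -/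
noncomputable def Tc (c : ℝ) : Euc 3 → Euc 3 := ballInv (cen c)

theorem norm_cen {c : ℝ} (hc : 0 < c) : ‖cen c‖ = c⁻¹ := by
  unfold cen
  rw [norm_smul]
  simp [abs_of_pos hc]

theorem one_lt_norm_cen {c : ℝ} (hc : 0 < c) (hc1 : c < 1) : 1 < ‖cen c‖ := by
  rw [norm_cen hc]
  exact (one_lt_inv₀ hc).mpr hc1

theorem factor_eq {c : ℝ} (hc : 0 < c) (z : Euc 3) :
    (‖cen c‖ ^ 2 - 1) / ‖z - cen c‖ ^ 2 = lc c (fun i => z i) := by
  have h1 : ‖z - cen c‖ ^ 2 = ∑ i, z i ^ 2 - 2 * (c⁻¹ * z 2) + (c⁻¹) ^ 2 := by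
    rw [norm_sub_sq_real, norm_cen hc, EuclideanSpace.norm_sq_eq]
    have : ⟪z, cen c⟫ = c⁻¹ * z 2 := by
      unfold cen
      rw [inner_smul_right, EuclideanSpace.inner_single_right]
      simp
    rw [this]
    simp
  rw [h1, norm_cen hc]
  unfold lc
  have h2 : (c⁻¹) ^ 2 - 1 = (1 - c ^ 2) * (c⁻¹) ^ 2 := by field_simp
  have h3 : ∑ i, z i ^ 2 - 2 * (c⁻¹ * z 2) + (c⁻¹) ^ 2
      = (1 - 2 * c * z 2 + c ^ 2 * ∑ i, z i ^ 2) * (c⁻¹) ^ 2 := by
    field_simp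
    ring
  rw [h2, h3]
  exact mul_div_mul_right _ _ (pow_ne_zero 2 (inv_ne_zero hc.ne'))

theorem Tc_confExt {c : ℝ} (hc : 0 < c) (hc1 : c < 1) :
    ConfExt (Tc c) (fun z => lc c (fun i => z i)) := by
  have hy := one_lt_norm_cen hc hc1
  refine ⟨⟨{x | x ≠ cen c}, isOpen_ne, fun z hz => ne_of_mem hy hz, ballInv_contDiffOn (cen c)⟩,
    ?_, ?_⟩
  · intro z hz
    rw [← factor_eq hc]
    have h1 : 0 < ‖z - cen c‖ := by
      rw [norm_pos_iff, sub_ne_zero]
      exact ne_of_mem hy hz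
    have h2 : 0 < ‖cen c‖ ^ 2 - 1 := by nlinarith
    positivity
  · intro z hz v w
    rw [← factor_eq hc]
    exact ballInv_inner hy (ne_of_mem hy hz) v w

theorem Tc_conf {c : ℝ} (hc : 0 < c) (hc1 : c < 1) : IsConformalDiffeo 3 (Tc c) := by
  have hy := one_lt_norm_cen hc hc1
  have hext := Tc_confExt hc hc1
  have hsm : ContDiffOn ℝ ∞ (Tc c) (Metric.closedBall 0 1) :=
    (ballInv_contDiffOn (cen c)).mono fun z hz => ne_of_mem hy hz
  refine ⟨hsm, ⟨Tc c, hsm, ballInv_mapsTo hy, ballInv_mapsTo hy,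
    fun z _ => ballInv_ballInv hy z, fun z _ => ballInv_ballInv hy z⟩, _, fun z hz =>
    ⟨hext.pos z hz, fun v w => ?_⟩⟩
  have hu : UniqueDiffWithinAt ℝ (Metric.closedBall (0 : Euc 3) 1) z := by
    refine uniqueDiffOn_convex (convex_closedBall 0 1) ?_ z hz
    rw [interior_closedBall _ one_ne_zero]
    exact ⟨0, by simp⟩
  have hd : DifferentiableAt ℝ (Tc c) z :=
    (ballInv_hasFDerivAt hy (ne_of_mem hy hz)).differentiableAt
  have hw : fderivWithin ℝ (Tc c) (cball 3) z = fderiv ℝ (Tc c) z := hd.fderivWithin hu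
  unfold ip dball
  rw [hw]
  exact hext.conf z hz v w

end Pool.Agent.FBM
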