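import Pool.Agent.FBM.G.PD

/-! # FBM block G: minimality and the free boundary condition -/

open Set Function MeasureTheory Filter Topology
open scoped Manifold ContDiff RealInnerProductSpace

namespace Pool.Agent.FBM

theorem reU_second {G : Fin 3 → ℂ → ℂ} {c : ℝ} {q : Euc 2} {O : Set ℂ} (hO : IsOpen O)
    (h : ∀ j, DifferentiableOn ℂ (G j) O) (hq : cw c q ∈ O) (v u : Euc 2) (j : Fin 3) :
    fderiv ℝ (fderiv ℝ (reU G c)) q v u j
      = (deriv (deriv (G j)) (cw c q) * (lwL u * lwL v)).re := by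
  have hne : (∞ : WithTop ℕ∞) ≠ 0 := by simp
  have hd : HasFDerivAt (fderiv ℝ (reU G c)) (fderiv ℝ (fderiv ℝ (reU G c)) q) q :=
    (((reU_contDiffAt hO h hq).fderiv_right (m := ∞) (by simp)).differentiableAt hne).hasFDerivAt
  have h1 : HasFDerivAt (fun y => fderiv ℝ (reU G c) y u)
      ((ContinuousLinearMap.apply ℝ (Euc 3) u).comp (fderiv ℝ (fderiv ℝ (reU G c)) q)) q :=
    (ContinuousLinearMap.apply ℝ (Euc 3) u).hasFDerivAt.comp q hd
  set H : Fin 3 → ℂ → ℂ := fun j w => deriv (G j) w * lwL u with hH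
  have hdG : ∀ j, DifferentiableAt ℂ (deriv (G j)) (cw c q) := fun j =>
    ((h j).deriv hO).differentiableAt (hO.mem_nhds hq)
  have hHd : ∀ j, DifferentiableAt ℂ (H j) (cw c q) := fun j => (hdG j).mul_const _
  have h2 : (fun y => fderiv ℝ (reU G c) y u) =ᶠ[𝓝 q] reU H c := by
    have h3 : ∀ᶠ y in 𝓝 q, cw c y ∈ O := (cw_cont c).continuousAt.eventually (hO.mem_nhds hq)
    filter_upwards [h3] with y hy
    ext i
    rw [reU_fderiv (fun j => (h j).differentiableAt (hO.mem_nhds hy)), reU_apply]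
  have h4 : fderiv ℝ (reU H c) q = (ContinuousLinearMap.apply ℝ (Euc 3) u).comp
      (fderiv ℝ (fderiv ℝ (reU G c)) q) := (h1.congr_of_eventuallyEq h2.symm).fderiv
  have h5 := congrArg (fun L : Euc 2 →L[ℝ] Euc 3 => L v j) h4
  simp only [ContinuousLinearMap.comp_apply, ContinuousLinearMap.apply_apply] at h5
  rw [← h5, reU_fderiv hHd]
  have h6 : deriv (H j) (cw c q) = deriv (deriv (G j)) (cw c q) * lwL u := by
    rw [hH]
    exact deriv_mul_const (hdG j) _
  rw [h6, mul_assoc]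

theorem reU_harm {G : Fin 3 → ℂ → ℂ} {c : ℝ} {q : Euc 2} {O : Set ℂ} (hO : IsOpen O)
    (h : ∀ j, DifferentiableOn ℂ (G j) O) (hq : cw c q ∈ O) :
    ∑ i, fderiv ℝ (fderiv ℝ (reU G c)) q (bs i) (bs i) = 0 := by
  rw [Fin.sum_univ_two]
  ext j
  rw [PiLp.add_apply, reU_second hO h hq, reU_second hO h hq]
  simp [lwL_apply]

variable {S : Type} [TopologicalSpace S] {x : S → Euc 3}

theorem PData.T_iff [T2Space S] (P : PData S x) {q : Euc 2} :
    q ∈ P.pat.T ↔ cw P.c q ∈ P.V := by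
  have h0 : q ∈ P.pat.T ↔ (cw P.c ((𝓡∂ 2).symm q).1 ∈ P.V ∧ q ∈ range (𝓡∂ 2)) := Iff.rfl
  rw [h0]
  constructor
  · rintro ⟨h1, h2⟩
    rwa [val_symm h2] at h1
  · intro h
    have h2 : q ∈ range (𝓡∂ 2) := by
      rw [range_modelWithCornersEuclideanHalfSpace]
      change 0 ≤ q 0
      have := P.hV h
      rw [cw_im] at this
      linarith
    refine ⟨?_, h2⟩
    rwa [val_symm h2]

theorem PData.gramU_eq (P : PData S x) {q : Euc 2} (hq : cw P.c q ∈ P.V) :
    gramU (reU P.G P.c) q = P.rho (cw P.c q) • (1 : Matrix (Fin 2) (Fin 2) ℝ) := by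
  ext i j
  simp only [gramU, Matrix.of_apply, P.inner hq, Matrix.smul_apply, smul_eq_mul, Matrix.one_apply]
  congr 1
  by_cases h : i = j
  · simp [h]
  · simp [h, EuclideanSpace.inner_single_left]

theorem PData.det_gramU (P : PData S x) {q : Euc 2} (hq : cw P.c q ∈ P.V) :
    Real.sqrt (gramU (reU P.G P.c) q).det = P.rho (cw P.c q) := by
  rw [P.gramU_eq hq, Matrix.det_smul]
  simp only [Fintype.card_fin, Matrix.det_one, mul_one]
  exact Real.sqrt_sq (P.rho_pos hq).le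

section Chart

variable [T2Space S] [ChartedSpace (EuclideanHalfSpace 2) S]

theorem PData.minimal (P : PData S x) {p : S} (h : chartAt (EuclideanHalfSpace 2) p = P.e)
    {q : Euc 2} (hq : q ∈ (extChartAt (𝓡∂ 2) p).target) :
    MeanCurvatureZero x p q := by
  rw [P.pat.target_eq h] at hq
  have hV : cw P.c q ∈ P.V := P.T_iff.mp hq
  have hO : cw P.c q ∈ P.O := by
    have := hV
    rw [P.VO] at this
    exact this.1
  intro N _
  rw [P.pat.gram_eq h hq]
  simp only [P.pat.d2_eq h hq]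
  change ∑ i, ∑ j, (gramU (reU P.G P.c) q)⁻¹ i j
    * ⟪fderiv ℝ (fderiv ℝ (reU P.G P.c)) q (bs j) (bs i), N⟫ = 0
  have hr : P.rho (cw P.c q) ≠ 0 := (P.rho_pos hV).ne'
  have h1 : (gramU (reU P.G P.c) q)⁻¹
      = (P.rho (cw P.c q))⁻¹ • (1 : Matrix (Fin 2) (Fin 2) ℝ) := by
    rw [P.gramU_eq hV]
    apply Matrix.inv_eq_right_inv
    rw [smul_mul_smul_comm, mul_inv_cancel₀ hr, one_smul, one_mul]
  have h2 := reU_harm P.Oo P.an hO
  have h3 : ∑ i, ⟪fderiv ℝ (fderiv ℝ (reU P.G P.c)) q (bs i) (bs i), N⟫ = 0 := by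
    rw [← sum_inner, h2, inner_zero_left]
  rw [h1]
  have h4 : ∀ i, ∑ j, ((P.rho (cw P.c q))⁻¹ • (1 : Matrix (Fin 2) (Fin 2) ℝ)) i j
      * ⟪fderiv ℝ (fderiv ℝ (reU P.G P.c)) q (bs j) (bs i), N⟫
      = (P.rho (cw P.c q))⁻¹ * ⟪fderiv ℝ (fderiv ℝ (reU P.G P.c)) q (bs i) (bs i), N⟫ := by
    intro i
    rw [Finset.sum_eq_single i]
    · simp
    · intro j _ hj
      simp [Ne.symm hj]
    · simp
  rw [Finset.sum_congr rfl fun i _ => h4 i, ← Finset.mul_sum, h3, mul_zero]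

theorem PData.free (P : PData S x) {p : S} (h : chartAt (EuclideanHalfSpace 2) p = P.e)
    (hx : ∀ s, ‖x s‖ ≤ 1) (hp : p ∈ (𝓡∂ 2).boundary S) :
    ‖x p‖ = 1 ∧ ConormalIsPosition 2 x p := by
  have hT : extChartAt (𝓡∂ 2) p p ∈ P.pat.T := by
    rw [← P.pat.target_eq h]
    exact mem_extChartAt_target p
  have hb : (extChartAt (𝓡∂ 2) p p) 0 = 0 := by
    have h1 : extChartAt (𝓡∂ 2) p p ∈ frontier (range (𝓡∂ 2)) := hp
    rw [frontier_range_modelWithCornersEuclideanHalfSpace] at h1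
    exact h1.symm
  have hd1 := P.pat.d1_eq h hT
  have hxp : P.pat.U (extChartAt (𝓡∂ 2) p p) = x p := by
    rw [P.pat.eq' hT, ← P.pat.symm_eq h, extChartAt_to_inv]
  unfold ConormalIsPosition base
  simp only [hd1]
  set q := extChartAt (𝓡∂ 2) p p with hq
  change P.pat.U q = x p at hxp
  have hV : cw P.c q ∈ P.V := P.T_iff.mp hT
  have hU : P.pat.U = reU P.G P.c := rfl
  rw [hU] at hxp ⊢
  obtain ⟨h1, κ, hκ⟩ := P.bd _ hV (by rw [cw_im, hb]; ring)
  have hnorm : ‖x p‖ = 1 := by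
    rw [← hxp, EuclideanSpace.norm_eq]
    simp only [reU_apply, Real.norm_eq_abs, sq_abs, h1, Real.sqrt_one]
  refine ⟨hnorm, ?_⟩
  have h2 : fderiv ℝ (reU P.G P.c) q (bs 0) = -κ • x p := by
    ext j
    rw [reU_fderiv (fun j => P.diffAt hV j), ← hxp]
    simp [lwL_apply, hκ j]
  have hκ0 : κ ≠ 0 := by
    intro h0
    rw [h0, neg_zero, zero_smul] at h2
    have h3 := P.pat.inj' hT
    have h4 : (bs 0 : Euc 2) = 0 := h3 (by rw [hU, h2, map_zero])
    simp at h4
  have hκp : 0 ≤ κ := by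
    have hdf : HasFDerivAt (reU P.G P.c) (fderiv ℝ (reU P.G P.c) q) q :=
      (reU_differentiableAt (fun j => P.diffAt hV j)).hasFDerivAt
    have hdn := (hdf.norm_sq).hasFDerivWithinAt (s := range (𝓡∂ 2))
    have hmax : IsLocalMaxOn (fun y => ‖reU P.G P.c y‖ ^ 2) (range (𝓡∂ 2)) q := by
      filter_upwards [P.pat.T_nhds hT] with y hy
      have h5 := P.pat.eq' hy
      rw [hU] at h5
      rw [h5, hxp, hnorm]
      have := hx (P.pat.F y)
      have h6 := norm_nonneg (x (P.pat.F y))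
      nlinarith
    have hcone : (bs 0 : Euc 2) ∈ posTangentConeAt (range (𝓡∂ 2)) q := by
      apply mem_posTangentConeAt_of_segment_subset
      refine (𝓡∂ 2).convex_range.segment_subset hT.2 ?_
      rw [range_modelWithCornersEuclideanHalfSpace]
      change 0 ≤ (q + (bs 0 : Euc 2) : Euc 2) 0
      rw [PiLp.add_apply, hb]
      simp
    have h7 := hmax.hasFDerivWithinAt_nonpos hdn hcone
    simp only [smul_apply, ContinuousLinearMap.comp_apply,
      innerSL_apply_apply, h2, hxp, inner_smul_right, real_inner_self_eq_norm_sq, hnorm] at h7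
    simp at h7
    exact h7
  have hκpos : 0 < κ := lt_of_le_of_ne hκp (Ne.symm hκ0)
  refine ⟨-κ⁻¹ • bs 0, ?_, ?_, ?_⟩
  · simp
    exact hκpos
  · intro w hw
    unfold ip
    rw [P.inner hV, inner_smul_right, EuclideanSpace.inner_single_right, hw]
    simp
  · rw [map_smul, h2, smul_smul]
    have : -κ⁻¹ * -κ = 1 := by field_simp
    rw [this, one_smul]

end Chart

end Pool.Agent.FBM
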