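import Pool.Agent.FBM.G.G5
import Pool.Agent.FBM.FinDE
import Pool.Agent.FBM.FinH
import Pool.Agent.FBM.F.All

/-! # FBM: everything except G2 -/

namespace Pool.Agent.FBM

theorem fin_G (hG : Stmt_G2) : Stmt_final := by
  have hF := _root_.FBM.F.F_all (fun m p hp => (f_C_edge m p hp).1) f_D_bd f_E_reg f_E_cor
  exact final_of f_D_bd f_E_reg f_E_cor hF.1 hF.2.1 hF.2.2.1 hF.2.2.2 hG f_H_main f_C_edge

end Pool.Agent.FBM
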