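import Pool.Agent.FBM.G.FinG
import Pool.Agent.FBM.G.S.MKP
import Pool.Agent.FBM.G.S.GIN
import Pool.Agent.FBM.G.S.GCN
import Pool.Agent.FBM.G.S.FLD
import Pool.Agent.FBM.G.S.FL0
import Pool.Agent.FBM.G.S.EDP
import Pool.Agent.FBM.G.S.SGR
import Pool.Agent.FBM.G.S.CNR
import Pool.Agent.FBM.G.S.CNC
import Pool.Agent.FBM.G.S.BIG
import Pool.Agent.FBM.G.S.CPT
import Pool.Agent.FBM.G.S.REG
import Pool.Agent.FBM.G.S.CO1
import Pool.Agent.FBM.G.S.SRF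

/-! # FBM: G2 and the final theorem -/

namespace Pool.Agent.FBM

open G2

theorem fin_G2 (hPSQ : Stmt_PSQ) (hSGC : Stmt_SGC) (hCO2 : Stmt_CO2) : Stmt_G2 := by
  intro hD hEr hEc _ hFr hFc hFi m p hp X lam T hX hpos
  have hGI : GIn (Dcfg m p.1 p.2) X lam T := t_GIN hD hEr hEc hFr hFc hFi m p hp X lam T hX hpos
  have hFLD : Stmt_FLD := t_FLD (t_GCN hPSQ)
  have hSRF : Stmt_SRF := t_SRF t_MKP t_CPT t_BIG
    (t_REG (t_SGR hPSQ t_EDP) (t_CNR hPSQ) hFLD t_FL0)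
    (t_CO1 hSGC (t_CNC hPSQ) hFLD t_FL0) hCO2
  obtain ⟨B, hB⟩ := hSRF _ X lam T hGI
  exact ⟨SS X, inferInstance, sx X, B, hB⟩

end Pool.Agent.FBM
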