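import Pool.Agent.FBM.G.S.FIN
import Pool.Agent.FBM.G.S.MKP
import Pool.Agent.FBM.G.S.GIN
import Pool.Agent.FBM.G.S.PSQ
import Pool.Agent.FBM.G.S.GCN
import Pool.Agent.FBM.G.S.FLD
import Pool.Agent.FBM.G.S.FL0
import Pool.Agent.FBM.G.S.EDP
import Pool.Agent.FBM.G.S.SGR
import Pool.Agent.FBM.G.S.SGC
import Pool.Agent.FBM.G.S.CNR
import Pool.Agent.FBM.G.S.CNC
import Pool.Agent.FBM.G.S.BIG
import Pool.Agent.FBM.G.S.CPT
import Pool.Agent.FBM.G.S.REG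
import Pool.Agent.FBM.G.S.CO1
import Pool.Agent.FBM.G.S8.CO2
import Pool.Agent.FBM.G.S.SRF

/-!
# FBM block G2: the surface (all modules put together)
-/

namespace Pool.Agent.FBM
namespace G2

theorem all_GCN : Stmt_GCN := t_GCN t_PSQ

theorem all_FLD : Stmt_FLD := t_FLD all_GCN

theorem all_SGR : Stmt_SGR := t_SGR t_PSQ t_EDP

theorem all_SGC : Stmt_SGC := t_SGC t_PSQ t_EDP

theorem all_REG : Stmt_REG := t_REG all_SGR (t_CNR t_PSQ) all_FLD t_FL0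

theorem all_CO1 : Stmt_CO1 := t_CO1 all_SGC (t_CNC t_PSQ) all_FLD t_FL0

theorem all_CO2 : Stmt_CO2 := t_CO2b all_SGC (t_CNC t_PSQ) all_FLD t_FL0

theorem all_SRF : Stmt_SRF := t_SRF t_MKP t_CPT t_BIG all_REG all_CO1 all_CO2

end G2

/-- G2 -/
theorem stmt_G2 : Stmt_G2 := G2.stmt_G2_of G2.t_GIN G2.all_SRF

end Pool.Agent.FBM
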