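import Pool.Agent.FBM.G.Man2

/-! # FBM block G: volume measures -/

open Set Function MeasureTheory Filter Topology
open scoped Manifold ContDiff RealInnerProductSpace ENNReal

namespace Pool.Agent.FBM

theorem measurableSet_inter_pre {α β : Type*} [TopologicalSpace α] [MeasurableSpace α]
    [OpensMeasurableSpace α] [TopologicalSpace β] [MeasurableSpace β] [BorelSpace β] {f : α → β}
    {s : Set α} {t : Set β} (hf : ContinuousOn f s) (hs : MeasurableSet s) (ht : MeasurableSet t) :
    MeasurableSet (f ⁻¹' t ∩ s) := by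
  have h1 : Measurable (s.domRestrict f) :=
    (continuousOn_iff_continuous_domRestrict.mp hf).measurable
  have h2 := hs.subtype_image (h1 ht)
  have h3 : Subtype.val '' (s.domRestrict f ⁻¹' t) = f ⁻¹' t ∩ s := by
    ext a
    constructor
    · rintro ⟨⟨b, hb⟩, hb', rfl⟩
      exact ⟨hb', hb⟩
    · rintro ⟨h, h'⟩
      exact ⟨⟨a, h'⟩, h, rfl⟩
  rwa [h3] at h2

variable {n k : ℕ} [NeZero k] {S : Type} [TopologicalSpace S] {x : S → Euc n}

theorem Pat.T_meas (A : Pat n k S x) : MeasurableSet A.T :=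
  (A.e.open_target.preimage (𝓡∂ k).continuous_symm).measurableSet.inter
    (𝓡∂ k).isClosed_range.measurableSet

theorem Pat.F_cont (A : Pat n k S x) : ContinuousOn A.F A.T :=
  A.e.continuousOn_symm.comp (𝓡∂ k).continuous_symm.continuousOn (fun _ hq => hq.1)

theorem Pat.F_mem (A : Pat n k S x) {q : Euc k} (hq : q ∈ A.T) : A.F q ∈ A.e.source :=
  A.e.map_target hq.1

theorem Pat.e_F (A : Pat n k S x) {q : Euc k} (hq : q ∈ A.T) : (A.e (A.F q)).1 = q := by
  change (A.e (A.e.symm ((𝓡∂ k).symm q))).1 = q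
  rw [A.e.right_inv hq.1, val_symm hq.2]

theorem Pat.F_e (A : Pat n k S x) {s : S} (hs : s ∈ A.e.source) : A.F (A.e s).1 = s := by
  change A.e.symm ((𝓡∂ k).symm ((𝓡∂ k) (A.e s))) = s
  rw [(𝓡∂ k).left_inv, A.e.left_inv hs]

theorem Pat.e_mem (A : Pat n k S x) {s : S} (hs : s ∈ A.e.source) : (A.e s).1 ∈ A.T := by
  refine ⟨?_, mem_range_self _⟩
  change (𝓡∂ k).symm ((𝓡∂ k) (A.e s)) ∈ A.e.target
  rw [(𝓡∂ k).left_inv]
  exact A.e.map_source hs

/-- parameters of a subset -/
def Pat.D (A : Pat n k S x) (B : Set S) : Set (Euc k) := A.F ⁻¹' B ∩ A.T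

/-- density -/
noncomputable def Pat.den (A : Pat n k S x) (q : Euc k) : ℝ≥0∞ :=
  ENNReal.ofReal (Real.sqrt (gramU A.U q).det)

theorem Pat.D_meas [MeasurableSpace S] [BorelSpace S] (A : Pat n k S x) {B : Set S}
    (hB : MeasurableSet B) : MeasurableSet (A.D B) :=
  measurableSet_inter_pre A.F_cont A.T_meas hB

/-- the measure of a patch -/
noncomputable def Pat.vm [MeasurableSpace S] (A : Pat n k S x) : Measure S :=
  Measure.map A.F ((volume.restrict A.T).withDensity A.den)

theorem Pat.vm_apply [MeasurableSpace S] [BorelSpace S] (A : Pat n k S x) {B : Set S}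
    (hB : MeasurableSet B) : A.vm B = ∫⁻ q in A.D B, A.den q := by
  have h1 : AEMeasurable A.F (volume.restrict A.T) := A.F_cont.aemeasurable A.T_meas
  have h2 : AEMeasurable A.F ((volume.restrict A.T).withDensity A.den) :=
    h1.mono_ac (withDensity_absolutelyContinuous _ _)
  unfold Pat.vm Pat.D
  rw [Measure.map_apply_of_aemeasurable h2 hB, withDensity_apply', Measure.restrict_restrict' A.T_meas]

/-- the linear part of the transition -/
theorem Pat.tr_image (A A' : Pat n k S x) {B : Set S} (h : B ⊆ A.e.source)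
    (h' : B ⊆ A'.e.source) : A.tr A' '' (A.D B) = A'.D B := by
  ext y
  constructor
  · rintro ⟨q, hq, rfl⟩
    have h1 : A.F q ∈ B := hq.1
    have h3 : A'.F (A'.e (A.F q)).1 = A.F q := A'.F_e (h' h1)
    refine ⟨?_, A'.e_mem (h' h1)⟩
    change A'.F (A'.e (A.F q)).1 ∈ B
    rw [h3]
    exact h1
  · intro hy
    have h1 : A'.F y ∈ B := hy.1
    have h3 : A.F (A.e (A'.F y)).1 = A'.F y := A.F_e (h h1)
    refine ⟨(A.e (A'.F y)).1, ⟨?_, A.e_mem (h h1)⟩, ?_⟩
    · change A.F (A.e (A'.F y)).1 ∈ B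
      rw [h3]
      exact h1
    · change (A'.e (A.F (A.e (A'.F y)).1)).1 = y
      rw [h3]
      exact A'.e_F hy.2

theorem Pat.D_sub_td (A A' : Pat n k S x) {B : Set S} (h' : B ⊆ A'.e.source) :
    A.D B ⊆ A.td A' := by
  intro q hq
  refine ⟨?_, hq.2.2⟩
  simp only [mem_preimage, OpenPartialHomeomorph.trans_source,
    OpenPartialHomeomorph.symm_source]
  exact ⟨hq.2.1, h' hq.1⟩

theorem Pat.tr_inj (A A' : Pat n k S x) {B : Set S} (h' : B ⊆ A'.e.source) :
    InjOn (A.tr A') (A.D B) := by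
  intro q hq q' hq' hqq
  have h1 : A'.F (A.tr A' q) = A.F q := A'.F_e (h' hq.1)
  have h2 : A'.F (A.tr A' q') = A.F q' := A'.F_e (h' hq'.1)
  have h3 : A.F q = A.F q' := by rw [← h1, ← h2, hqq]
  rw [← A.e_F hq.2, ← A.e_F hq'.2, h3]

omit [NeZero k] in
theorem gramU_comp {U U' : Euc k → Euc n} {q q' : Euc k} {L : Euc k →L[ℝ] Euc k}
    (h : fderiv ℝ U q = (fderiv ℝ U' q').comp L) :
    gramU U q = (LinearMap.toMatrix (EuclideanSpace.basisFun (Fin k) ℝ).toBasis
        (EuclideanSpace.basisFun (Fin k) ℝ).toBasis (L : Euc k →ₗ[ℝ] Euc k)).transpose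
      * gramU U' q' * (LinearMap.toMatrix (EuclideanSpace.basisFun (Fin k) ℝ).toBasis
        (EuclideanSpace.basisFun (Fin k) ℝ).toBasis (L : Euc k →ₗ[ℝ] Euc k)) := by
  have hs : ∀ v : Euc k, v = ∑ a, v a • (bs a : Euc k) := by
    intro v
    ext i
    simp [Pi.single_apply]
  have hM : ∀ i j, LinearMap.toMatrix (EuclideanSpace.basisFun (Fin k) ℝ).toBasis
      (EuclideanSpace.basisFun (Fin k) ℝ).toBasis (L : Euc k →ₗ[ℝ] Euc k) i j = L (bs j) i := by
    intro i j
    simp [LinearMap.toMatrix_apply]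
  ext i j
  rw [Matrix.mul_apply]
  simp only [Matrix.mul_apply, Matrix.transpose_apply, hM]
  simp only [gramU, Matrix.of_apply]
  rw [h]
  simp only [ContinuousLinearMap.comp_apply]
  conv_lhs => rw [hs (L (bs i)), hs (L (bs j))]
  simp only [map_sum, map_smul, sum_inner, inner_sum, inner_smul_left, inner_smul_right]
  refine Finset.sum_congr rfl fun b _ => ?_
  rw [Finset.sum_mul, Finset.mul_sum]
  refine Finset.sum_congr rfl fun a _ => ?_
  simp
  ring

omit [NeZero k] in
theorem sqrt_det_gramU {U U' : Euc k → Euc n} {q q' : Euc k} {L : Euc k →L[ℝ] Euc k}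
    (h : fderiv ℝ U q = (fderiv ℝ U' q').comp L) :
    Real.sqrt (gramU U q).det = |L.det| * Real.sqrt (gramU U' q').det := by
  rw [gramU_comp h, Matrix.det_mul, Matrix.det_mul, Matrix.det_transpose,
    LinearMap.det_toMatrix]
  have : (LinearMap.det (L : Euc k →ₗ[ℝ] Euc k)) = L.det := rfl
  rw [this]
  have h2 : L.det * (gramU U' q').det * L.det = L.det ^ 2 * (gramU U' q').det := by ring
  rw [h2, Real.sqrt_mul (sq_nonneg _), Real.sqrt_sq_eq_abs]

/-- the volume does not depend on the patch -/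
theorem Pat.compat (A A' : Pat n k S x) [MeasurableSpace S] [BorelSpace S] {B : Set S}
    (hB : MeasurableSet B) (h : B ⊆ A.e.source) (h' : B ⊆ A'.e.source) :
    A.vm B = A'.vm B := by
  have hne : (∞ : WithTop ℕ∞) ≠ 0 := by simp
  rw [A.vm_apply hB, A'.vm_apply hB, ← A.tr_image A' h h']
  have hsub := A.D_sub_td A' h'
  have hder : ∀ q ∈ A.D B, HasFDerivWithinAt (A.tr A')
      (fderivWithin ℝ (A.tr A') (A.td A') q) (A.D B) q := fun q hq =>
    (((A.tr_smooth A') q (hsub hq)).differentiableWithinAt hne).hasFDerivWithinAt.mono hsub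
  rw [lintegral_image_eq_lintegral_abs_det_fderiv_mul volume (A.D_meas hB) hder
    (A.tr_inj A' h')]
  refine setLIntegral_congr_fun (A.D_meas hB) fun q hq => ?_
  have hq1 := hsub hq
  have hu : UniqueDiffWithinAt ℝ (A.td A') q :=
    (uniq_range hq.2.2).mono_nhds (by
      rw [nhdsWithin_le_iff]
      exact A.td_nhds A' hq1)
  have hmem : A.tr A' q ∈ A'.T := A'.e_mem (h' hq.1)
  have h1 : HasFDerivWithinAt (A'.U ∘ A.tr A')
      ((fderiv ℝ A'.U (A.tr A' q)).comp (fderivWithin ℝ (A.tr A') (A.td A') q)) (A.td A') q :=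
    ((A'.smooth' hmem).differentiableAt hne).hasFDerivAt.comp_hasFDerivWithinAt q
      (((A.tr_smooth A') q hq1).differentiableWithinAt hne).hasFDerivWithinAt
  have h2 : HasFDerivWithinAt A.U (fderiv ℝ A.U q) (A.td A') q :=
    ((A.smooth' hq.2).differentiableAt hne).hasFDerivAt.hasFDerivWithinAt
  have h3 : HasFDerivWithinAt A.U
      ((fderiv ℝ A'.U (A.tr A' q)).comp (fderivWithin ℝ (A.tr A') (A.td A') q)) (A.td A') q :=
    h1.congr (fun y hy => (A.U_tr A' hy).symm) (A.U_tr A' hq1).symm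
  have h4 := hu.eq h2 h3
  simp only [Pat.den]
  rw [sqrt_det_gramU h4, ENNReal.ofReal_mul (abs_nonneg _)]

/-- existence of the volume measure -/
theorem exists_vol [MeasurableSpace S] [BorelSpace S] [LindelofSpace S]
    (P : S → Pat n k S x) (hP : ∀ p, p ∈ (P p).e.source) :
    ∃ μ : Measure S, ∀ (A : Pat n k S x) (B : Set S), MeasurableSet B → B ⊆ A.e.source →
      μ B = ∫⁻ q in A.D B, A.den q := by
  rcases isEmpty_or_nonempty S with hS | hS
  · refine ⟨0, fun A B hB _ => ?_⟩
    rw [← A.vm_apply hB, eq_empty_of_isEmpty B]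
    simp
  obtain ⟨t, ht, hcov⟩ := countable_cover_nhds
    (fun p => (P p).e.open_source.mem_nhds (hP p))
  have htn : t.Nonempty := by
    by_contra h
    rw [not_nonempty_iff_eq_empty] at h
    rw [h] at hcov
    obtain ⟨s⟩ := hS
    have := hcov.symm ▸ mem_univ s
    simp at this
  obtain ⟨f, hf⟩ := ht.exists_eq_range htn
  set Q : ℕ → Pat n k S x := fun i => P (f i) with hQ
  set src : ℕ → Set S := fun i => (Q i).e.source with hsrc
  have hcov' : ⋃ i, src i = univ := by
    rw [← hcov, hf]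
    simp [hsrc, hQ]
  have hmeas : ∀ i, MeasurableSet (disjointed src i) := fun i =>
    MeasurableSet.disjointed (fun j => (Q j).e.open_source.measurableSet) i
  refine ⟨Measure.sum fun i => (Q i).vm.restrict (disjointed src i), fun A B hB hBA => ?_⟩
  rw [Measure.sum_apply _ hB, ← A.vm_apply hB]
  have h1 : ∀ i, (Q i).vm.restrict (disjointed src i) B = A.vm (B ∩ disjointed src i) := by
    intro i
    rw [Measure.restrict_apply hB]
    exact (Q i).compat A (hB.inter (hmeas i))
      (inter_subset_right.trans (disjointed_subset src i)) (inter_subset_left.trans hBA)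
  rw [tsum_congr h1, ← measure_iUnion]
  · rw [← inter_iUnion, iUnion_disjointed, hcov', inter_univ]
  · intro i j hij
    exact ((disjoint_disjointed src) hij).mono inter_subset_right inter_subset_right
  · exact fun i => hB.inter (hmeas i)

end Pool.Agent.FBM
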