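import Pool.Agent.FBM.G.FB
import Pool.Agent.FBM.G.Vol

/-! # FBM block G: the generic theorem G3 -/

open Set Function MeasureTheory Filter Topology
open scoped Manifold ContDiff RealInnerProductSpace ENNReal

namespace Pool.Agent.FBM

/-- the linear isometry `v ↦ v 1 + i v 0` -/
noncomputable def lwI : Euc 2 ≃ₗᵢ[ℝ] ℂ where
  toFun := lwL
  invFun := iw 0
  map_add' := map_add lwL
  map_smul' := map_smul lwL
  left_inv y := by
    have h : lwL y = cw 0 y := by simp [cw]
    rw [h, iw_cw]
  right_inv w := by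
    have h : lwL (iw 0 w) = cw 0 (iw 0 w) := by simp [cw]
    rw [h, cw_iw]
  norm_map' v := by
    change ‖lwL v‖ = ‖v‖
    have h := inner_lwL v v
    rw [real_inner_self_eq_norm_sq, Complex.mul_conj, Complex.ofReal_re,
      Complex.normSq_eq_norm_sq] at h
    exact (pow_left_inj₀ (norm_nonneg _) (norm_nonneg _) two_ne_zero).mp h.symm

theorem cw_mp (c : ℝ) : MeasurePreserving (cw c) volume volume := by
  have h1 : MeasurePreserving (lwL : Euc 2 → ℂ) volume volume := lwI.measurePreserving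
  have h2 : MeasurePreserving (fun w : ℂ => w - (c : ℂ) * Complex.I) volume volume :=
    measurePreserving_sub_right volume _
  exact h2.comp h1

variable {S : Type} [TopologicalSpace S] {x : S → Euc 3}

/-- a patch composed with a conformal map -/
noncomputable def Pat.post {f : Euc 3 → Euc 3} {lam : Euc 3 → ℝ} (A : Pat 3 2 S x)
    (hf : ConfExt f lam) (hx : ∀ s, ‖x s‖ ≤ 1) : Pat 3 2 S (f ∘ x) where
  e := A.e
  U := f ∘ A.U
  smooth := by
    intro q hq
    obtain ⟨Ω, hΩ, hsub, hsm⟩ := hf.ext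
    have h1 : A.U q.1 ∈ Ω := by
      rw [A.eq q hq]
      exact hsub (by simpa using hx _)
    exact (hsm.contDiffAt (hΩ.mem_nhds h1)).comp q.1 (A.smooth q hq)
  inj := by
    intro q hq
    have hne : (∞ : WithTop ℕ∞) ≠ 0 := by simp
    obtain ⟨Ω, hΩ, hsub, hsm⟩ := hf.ext
    have h0 : A.U q.1 ∈ Metric.closedBall (0 : Euc 3) 1 := by
      rw [A.eq q hq]
      simpa using hx _
    rw [fderiv_comp q.1 ((hsm.contDiffAt (hΩ.mem_nhds (hsub h0))).differentiableAt hne)
      ((A.smooth q hq).differentiableAt hne)]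
    suffices hg : Injective (fderiv ℝ f (A.U q.1)) from hg.comp (A.inj q hq)
    rw [injective_iff_map_eq_zero]
    intro v hv
    have h1 := hf.conf _ h0 v v
    rw [hv, inner_zero_left, real_inner_self_eq_norm_sq] at h1
    have h2 := hf.pos _ h0
    have h3 : ‖v‖ ^ 2 = 0 := by
      rcases mul_eq_zero.mp h1.symm with h | h
      · exact absurd h (pow_pos h2 2).ne'
      · exact h
    simpa using h3
  eq := by
    intro q hq
    change f (A.U q.1) = f (x (A.e.symm q))
    rw [A.eq q hq]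

theorem Pat.post_gram {f : Euc 3 → Euc 3} {lam : Euc 3 → ℝ} (A : Pat 3 2 S x)
    (hf : ConfExt f lam) (hx : ∀ s, ‖x s‖ ≤ 1) {q : Euc 2} (hq : q ∈ A.T) :
    Real.sqrt (gramU (A.post hf hx).U q).det
      = lam (A.U q) ^ 2 * Real.sqrt (gramU A.U q).det := by
  have hne : (∞ : WithTop ℕ∞) ≠ 0 := by simp
  obtain ⟨Ω, hΩ, hsub, hsm⟩ := hf.ext
  have h0 : A.U q ∈ Metric.closedBall (0 : Euc 3) 1 := by
    rw [A.eq' hq]
    simpa using hx _
  have h1 : gramU (f ∘ A.U) q = lam (A.U q) ^ 2 • gramU A.U q := by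
    ext i j
    simp only [gramU, Matrix.of_apply, Matrix.smul_apply, smul_eq_mul]
    rw [fderiv_comp q ((hsm.contDiffAt (hΩ.mem_nhds (hsub h0))).differentiableAt hne)
      ((A.smooth' hq).differentiableAt hne)]
    exact hf.conf _ h0 _ _
  change Real.sqrt (gramU (f ∘ A.U) q).det = _
  rw [h1, Matrix.det_smul, Fintype.card_fin, Real.sqrt_mul (sq_nonneg _),
    Real.sqrt_sq (sq_nonneg _)]

/-- images of measurable sets -/
theorem PData.image_meas [T2Space S] [MeasurableSpace S] [BorelSpace S] (P : PData S x)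
    {A : Set ℂ} (hA : A ⊆ P.V) (hm : MeasurableSet A) : MeasurableSet (P.φ '' A) := by
  have h1 : P.φ '' A = P.psi ⁻¹' A ∩ P.φ '' P.V := by
    ext s
    constructor
    · rintro ⟨w, hw, rfl⟩
      refine ⟨?_, mem_image_of_mem _ (hA hw)⟩
      change P.psi (P.φ w) ∈ A
      rw [P.psi_φ (hA hw)]
      exact hw
    · rintro ⟨h, h'⟩
      exact ⟨P.psi s, h, P.φ_psi h'⟩
  rw [h1]
  exact measurableSet_inter_pre P.psi_cont P.img.measurableSet hm

theorem PData.D_eq [T2Space S] (P : PData S x) {A : Set ℂ} (hA : A ⊆ P.V) :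
    P.pat.D (P.φ '' A) = cw P.c ⁻¹' A := by
  ext q
  constructor
  · rintro ⟨h, h'⟩
    have h2 : P.pat.F q = P.φ (cw P.c q) := by
      change P.φ (cw P.c ((𝓡∂ 2).symm q).1) = P.φ (cw P.c q)
      rw [val_symm h'.2]
    rw [mem_preimage, h2] at h
    obtain ⟨w, hw, hw'⟩ := h
    have h3 := P.injV (hA hw) (P.T_iff.mp h') hw'
    change cw P.c q ∈ A
    rw [← h3]
    exact hw
  · intro h
    have hT : q ∈ P.pat.T := P.T_iff.mpr (hA h)
    refine ⟨?_, hT⟩
    have h2 : P.pat.F q = P.φ (cw P.c q) := by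
      change P.φ (cw P.c ((𝓡∂ 2).symm q).1) = P.φ (cw P.c q)
      rw [val_symm hT.2]
    change P.pat.F q ∈ P.φ '' A
    rw [h2]
    exact mem_image_of_mem _ h

theorem cw_emb (c : ℝ) : MeasurableEmbedding (cw c) := by
  have h : IsClosedEmbedding (cw c) := by
    let e : Euc 2 ≃ₜ ℂ :=
      { toFun := cw c
        invFun := iw c
        left_inv := iw_cw c
        right_inv := cw_iw c
        continuous_toFun := cw_cont c
        continuous_invFun := iw_cont c }
    exact e.isClosedEmbedding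
  exact h.measurableEmbedding

theorem Pat.image_ext {n k : ℕ} [NeZero k] {x : S → Euc n}
    [ChartedSpace (EuclideanHalfSpace k) S] (A : Pat n k S x) {p : S}
    (h : chartAt (EuclideanHalfSpace k) p = A.e) {B : Set S} (hB : B ⊆ A.e.source) :
    extChartAt (𝓡∂ k) p '' B = A.D B := by
  have h0 : ∀ s, extChartAt (𝓡∂ k) p s = (A.e s).1 := by
    intro s
    rw [extChartAt_coe, h]
    rfl
  ext q
  constructor
  · rintro ⟨s, hs, rfl⟩
    rw [h0]
    refine ⟨?_, A.e_mem (hB hs)⟩
    change A.F (A.e s).1 ∈ B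
    rw [A.F_e (hB hs)]
    exact hs
  · intro hq
    refine ⟨A.F q, hq.1, ?_⟩
    rw [h0, A.e_F hq.2]

theorem PData.rho_cont (P : PData S x) : ContinuousOn P.rho P.V := by
  have h : ∀ j, ContinuousOn (deriv (P.G j)) P.V := fun j =>
    ((P.an j).deriv P.Oo).continuousOn.mono (by rw [P.VO]; exact inter_subset_left)
  unfold PData.rho
  refine ContinuousOn.div_const ?_ 2
  exact continuousOn_finsetSum _ fun j _ => ((h j).norm).pow 2

theorem PData.xphi_cont (P : PData S x) : ContinuousOn (fun w => x (P.φ w)) P.V := by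
  have h1 : ContinuousOn (fun w => (WithLp.toLp 2 (fun j => (P.G j w).re) : Euc 3)) P.V := by
    refine (PiLp.continuous_toLp 2 _).comp_continuousOn ?_
    refine continuousOn_pi.mpr fun j => Complex.continuous_re.comp_continuousOn ?_
    exact (P.an j).continuousOn.mono (by rw [P.VO]; exact inter_subset_left)
  refine h1.congr fun w hw => ?_
  ext j
  exact P.eq w hw j

theorem stmt_G3 : Stmt_G3 := by
  intro S _ _ _ _ _ x hxc hx1 hcov
  choose P hP using hcov
  let _ : ChartedSpace (EuclideanHalfSpace 2) S := chs (fun p => (P p).pat) hP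
  have hch : ∀ p, chartAt (EuclideanHalfSpace 2) p = (P p).e := fun p => rfl
  refine ⟨chs (fun p => (P p).pat) hP, chs_manifold _ hP, ?_, ?_⟩
  · have hsm : ∀ p, ContMDiffAt (𝓡∂ 2) 𝓘(ℝ, Euc 3) ∞ x p := fun p =>
      (P p).pat.contMDiffAt (hch p) hxc
    refine ⟨hsm, ?_, fun p => by simpa [cball] using hx1 p, ?_, ?_, ?_⟩
    · intro p q hq
      rw [(P p).pat.target_eq (hch p)] at hq
      have h1 : d1 x p q = fderiv ℝ (P p).pat.U q := by
        ext1 v
        exact (P p).pat.d1_eq (hch p) hq v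
      rw [h1]
      exact (P p).pat.inj' hq
    · intro p hp
      exact ((P p).free (hch p) hx1 hp).1
    · intro p q hq
      exact (P p).minimal (hch p) hq
    · intro p hp
      exact ((P p).free (hch p) hx1 hp).2
  · intro f lam hf
    obtain ⟨μ, hμ⟩ := exists_vol (fun p => (P p).pat) hP
    obtain ⟨ν, hν⟩ := exists_vol (fun p => ((P p).pat).post hf hx1) hP
    refine ⟨μ, ν, ?_, ?_, ?_, ?_⟩
    · intro p B hB hBs
      rw [extChartAt_source] at hBs
      rw [hμ (P p).pat B hB hBs, (P p).pat.image_ext (hch p) hBs]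
      refine setLIntegral_congr_fun ((P p).pat.D_meas hB) fun q hq => ?_
      simp only [Pat.den, density]
      rw [(P p).pat.gram_eq (hch p) hq.2]
    · intro p B hB hBs
      rw [extChartAt_source] at hBs
      rw [hν ((P p).pat.post hf hx1) B hB hBs,
        ((P p).pat.post hf hx1).image_ext (hch p) hBs]
      refine setLIntegral_congr_fun (((P p).pat.post hf hx1).D_meas hB) fun q hq => ?_
      simp only [Pat.den, density]
      rw [((P p).pat.post hf hx1).gram_eq (hch p) hq.2]
    · intro Q A hA hm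
      have hs : Q.φ '' A ⊆ Q.pat.e.source := image_mono hA
      rw [hμ Q.pat _ (Q.image_meas hA hm) hs, Q.D_eq hA,
        ← (cw_mp Q.c).setLIntegral_comp_preimage_emb (cw_emb Q.c)]
      refine setLIntegral_congr_fun ((cw_cont Q.c).measurable hm) fun q hq => ?_
      simp only [Pat.den]
      rw [← Q.det_gramU (hA hq)]
      rfl
    · intro Q A hA hm
      have hs : Q.φ '' A ⊆ (Q.pat.post hf hx1).e.source := image_mono hA
      have hD : (Q.pat.post hf hx1).D (Q.φ '' A) = cw Q.c ⁻¹' A := Q.D_eq hA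
      rw [hν (Q.pat.post hf hx1) _ (Q.image_meas hA hm) hs, hD,
        ← (cw_mp Q.c).setLIntegral_comp_preimage_emb (cw_emb Q.c)]
      refine setLIntegral_congr_fun ((cw_cont Q.c).measurable hm) fun q hq => ?_
      have hT : q ∈ Q.pat.T := Q.T_iff.mpr (hA hq)
      have h2 : Q.pat.F q = Q.φ (cw Q.c q) := by
        change Q.φ (cw Q.c ((𝓡∂ 2).symm q).1) = Q.φ (cw Q.c q)
        rw [val_symm hT.2]
      simp only [Pat.den]
      rw [Q.pat.post_gram hf hx1 hT, Q.pat.eq' hT, h2, ← Q.det_gramU (hA hq)]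
      rfl

end Pool.Agent.FBM
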