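import Pool.Agent.FBM.G.StmtG2
import Pool.Agent.FBM.G.G3
import Pool.Agent.FBM.G.Conf

/-! # FBM block G: volumes of the surface and the final assembly -/

open Set Function MeasureTheory Filter Topology
open scoped Manifold ContDiff RealInnerProductSpace ENNReal

namespace Pool.Agent.FBM

theorem sg_norm (b : Bool) : ‖(sg b : ℂ)‖ = 1 := by
  cases b <;> simp [sg]

theorem sg_sq (b : Bool) : sg b ^ 2 = 1 := by
  cases b <;> simp [sg]

section

variable {X : Fin 3 → ℝ → ℝ} {S : Type} [TopologicalSpace S] {x : S → Euc 3}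
  {B : (Fin 3 → Bool) → PData S x}

theorem SurfOf.rho_eq (h : SurfOf X S x B) (σ : Fin 3 → Bool) (w : ℂ) :
    (B σ).rho w = dens X w / 2 := by
  unfold PData.rho dens
  congr 1
  refine Finset.sum_congr rfl fun j _ => ?_
  rw [h.bG σ j, deriv_const_mul_field, norm_mul, sg_norm, one_mul]

/-- the union of the big pieces -/
def bigU (B : (Fin 3 → Bool) → PData S x) : Set S := ⋃ σ, (B σ).φ '' Metric.ball 0 1

theorem SurfOf.isOpen_piece (h : SurfOf X S x B) (σ : Fin 3 → Bool) :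
    IsOpen ((B σ).φ '' Metric.ball 0 1) := by
  rw [← h.bV σ]
  exact (B σ).img

theorem PData.V_meas (P : PData S x) : MeasurableSet P.V := by
  rw [P.VO]
  exact P.Oo.measurableSet.inter (measurableSet_le measurable_const Complex.measurable_im)

variable [MeasurableSpace S] [BorelSpace S]

theorem SurfOf.null (h : SurfOf X S x B) [T2Space S] (μ : Measure S)
    (hμ : ∀ P : PData S x, ∀ A ⊆ P.V, MeasurableSet A → volume A = 0 → μ (P.φ '' A) = 0) :
    μ (bigU B)ᶜ = 0 := by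
  have := h.cpt
  choose P hP hP0 using h.cov
  obtain ⟨t, ht, hcov⟩ := countable_cover_nhds
    (fun s => (P s).img.mem_nhds (hP s))
  have hUo : IsOpen (bigU B) := isOpen_iUnion fun σ => h.isOpen_piece σ
  have hsub : (bigU B)ᶜ ⊆ ⋃ s ∈ t, (P s).φ '' ((P s).V \ ((P s).φ ⁻¹' bigU B ∩ (P s).V)) := by
    intro a ha
    have h1 : a ∈ ⋃ s ∈ t, (P s).φ '' (P s).V := by rw [hcov]; exact mem_univ a
    simp only [mem_iUnion] at h1 ⊢
    obtain ⟨s, hs, w, hw, rfl⟩ := h1
    exact ⟨s, hs, w, ⟨hw, fun h2 => ha h2.1⟩, rfl⟩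
  refine measure_mono_null hsub ?_
  rw [measure_biUnion_null_iff ht]
  intro s _
  have hc : ContinuousOn (P s).φ (P s).V := (P s).cont.mono (P s).VK
  refine hμ (P s) _ sdiff_subset
    ((P s).V_meas.diff (measurableSet_inter_pre hc (P s).V_meas hUo.measurableSet)) ?_
  refine measure_mono_null ?_ (hP0 s)
  rintro w ⟨hw, hw'⟩
  refine ⟨hw, fun σ hσ => hw' ⟨?_, hw⟩⟩
  exact mem_iUnion.mpr ⟨σ, hσ⟩

theorem SurfOf.total (h : SurfOf X S x B) [T2Space S] (μ : Measure S)
    (hμ : ∀ P : PData S x, ∀ A ⊆ P.V, MeasurableSet A → volume A = 0 → μ (P.φ '' A) = 0) :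
    μ univ = ∑ σ, μ ((B σ).φ '' Metric.ball 0 1) := by
  have h1 := h.null μ hμ
  have hUo : IsOpen (bigU B) := isOpen_iUnion fun σ => h.isOpen_piece σ
  have h2 : μ univ = μ (bigU B) := by
    rw [← measure_add_measure_compl hUo.measurableSet, h1, add_zero]
  rw [h2, bigU, measure_iUnion h.disj fun σ => (h.isOpen_piece σ).measurableSet, tsum_fintype]

end

theorem card_half : (Finset.univ.filter fun σ : Fin 3 → Bool => σ 2 = true).card = 4 := by
  decide

/-- the final assembly from the surface -/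
theorem final_of_surf {X : Fin 3 → ℝ → ℝ} {S : Type} [TopologicalSpace S] {x : S → Euc 3}
    {B : (Fin 3 → Bool) → PData S x} (h : SurfOf X S x B)
    (hpt : ∀ z ∈ Metric.ball (0 : ℂ) 1, ∀ j, pt X z j = (hz (X j) z).re)
    {c : ℝ} (hc : 0 < c) (hc1 : c < 1)
    (hlt : ∫⁻ z in Metric.ball (0 : ℂ) 1, ENNReal.ofReal (dens X z)
      < ∫⁻ z in Metric.ball (0 : ℂ) 1, ENNReal.ofReal (lc c (pt X z) ^ 2 * dens X z / 2)) :
    Stmt_final := by
  intro hV
  have := h.t2
  have := h.cpt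
  let _ : MeasurableSpace S := borel S
  have : BorelSpace S := ⟨rfl⟩
  obtain ⟨C, hC, hfb, hvol⟩ := stmt_G3 S x h.cont h.ball
    (fun s => let ⟨P, hP, _⟩ := h.cov s; ⟨P, hP⟩)
  obtain ⟨μ, ν, hμν⟩ := hvol (Tc c) _ (Tc_confExt hc hc1)
  have hle := hV S x (Tc c) μ ν hfb (Tc_conf hc hc1) hμν.vol hμν.vol'
  have hbm : MeasurableSet (Metric.ball (0 : ℂ) 1) := Metric.isOpen_ball.measurableSet
  have hbV : ∀ σ, Metric.ball (0 : ℂ) 1 ⊆ (B σ).V := fun σ => (h.bV σ).ge
  -- the total volume of `x`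
  have e1 : μ univ = 4 * ∫⁻ z in Metric.ball (0 : ℂ) 1, ENNReal.ofReal (dens X z) := by
    rw [h.total μ fun P A hA hm h0 => by
      rw [hμν.eq P A hA hm, Measure.restrict_eq_zero.mpr h0, lintegral_zero_measure]]
    have h1 : ∀ σ, μ ((B σ).φ '' Metric.ball 0 1)
        = ∫⁻ z in Metric.ball (0 : ℂ) 1, ENNReal.ofReal (dens X z / 2) := by
      intro σ
      rw [hμν.eq (B σ) _ (hbV σ) hbm]
      refine setLIntegral_congr_fun hbm fun w _ => ?_
      rw [h.rho_eq σ w]
    rw [Finset.sum_congr rfl fun σ _ => h1 σ, Finset.sum_const]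
    have h2 : (Finset.univ : Finset (Fin 3 → Bool)).card = 8 := by decide
    have h3 : ∀ z, ENNReal.ofReal (dens X z / 2) = 2⁻¹ * ENNReal.ofReal (dens X z) := by
      intro z
      rw [div_eq_inv_mul, ENNReal.ofReal_mul (by norm_num), ENNReal.ofReal_inv_of_pos (by norm_num)]
      norm_num
    simp only [h3]
    rw [lintegral_const_mul' _ _ (by simp), h2, nsmul_eq_mul, ← mul_assoc]
    congr 1
    have h4 : ((8 : ℕ) : ℝ≥0∞) = 4 * 2 := by norm_num
    rw [h4, mul_assoc, ENNReal.mul_inv_cancel (by norm_num) (by norm_num), mul_one]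
  -- the lower bound for the volume of `f ∘ x`
  have e2 : 4 * ∫⁻ z in Metric.ball (0 : ℂ) 1, ENNReal.ofReal (lc c (pt X z) ^ 2 * dens X z / 2)
      ≤ ν univ := by
    rw [h.total ν fun P A hA hm h0 => by
      rw [hμν.eq' P A hA hm, Measure.restrict_eq_zero.mpr h0, lintegral_zero_measure]]
    have h1 : ∀ σ ∈ Finset.univ.filter (fun σ : Fin 3 → Bool => σ 2 = true),
        ∫⁻ z in Metric.ball (0 : ℂ) 1, ENNReal.ofReal (lc c (pt X z) ^ 2 * dens X z / 2)
          = ν ((B σ).φ '' Metric.ball 0 1) := by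
      intro σ hσ
      rw [Finset.mem_filter] at hσ
      rw [hμν.eq' (B σ) _ (hbV σ) hbm]
      refine setLIntegral_congr_fun hbm fun w hw => ?_
      have h2 : ∀ j, x ((B σ).φ w) j = sg (σ j) * pt X w j := by
        intro j
        rw [(B σ).eq w (hbV σ hw) j, h.bG σ j, hpt w hw j, Complex.re_ofReal_mul]
      have h3 : lc c (fun i => x ((B σ).φ w) i) = lc c (pt X w) := by
        unfold lc
        have h4 : x ((B σ).φ w) 2 = pt X w 2 := by
          rw [h2, hσ.2]
          simp [sg]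
        have h5 : ∑ i, x ((B σ).φ w) i ^ 2 = ∑ i, pt X w i ^ 2 := by
          refine Finset.sum_congr rfl fun i _ => ?_
          rw [h2, mul_pow, sg_sq, one_mul]
        simp only [h4, h5]
      simp only [h3]
      rw [h.rho_eq σ w, mul_div_assoc]
    have h6 : ∑ σ ∈ Finset.univ.filter (fun σ : Fin 3 → Bool => σ 2 = true),
        ∫⁻ z in Metric.ball (0 : ℂ) 1, ENNReal.ofReal (lc c (pt X z) ^ 2 * dens X z / 2)
        = 4 * ∫⁻ z in Metric.ball (0 : ℂ) 1,
          ENNReal.ofReal (lc c (pt X z) ^ 2 * dens X z / 2) := by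
      rw [Finset.sum_const, card_half, nsmul_eq_mul]
      norm_num
    rw [← h6, Finset.sum_congr rfl h1]
    exact Finset.sum_le_sum_of_subset (Finset.filter_subset _ _)
  have e3 : 4 * ∫⁻ z in Metric.ball (0 : ℂ) 1, ENNReal.ofReal (dens X z)
      < 4 * ∫⁻ z in Metric.ball (0 : ℂ) 1, ENNReal.ofReal (lc c (pt X z) ^ 2 * dens X z / 2) :=
    (ENNReal.mul_lt_mul_iff_right (by norm_num) (by norm_num)).mpr hlt
  rw [e1] at hle
  exact absurd (lt_of_lt_of_le e3 (e2.trans hle)) (lt_irrefl _)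

/-- The final theorem from the blocks. -/
theorem final_of (hD : Stmt_D_bd) (hEr : Stmt_E_reg) (hEc : Stmt_E_cor) (hFp : Stmt_F_pos)
    (hFr : Stmt_F_reg) (hFc : Stmt_F_cor) (hFi : Stmt_F_int) (hG : Stmt_G2) (hH : Stmt_H_main)
    (hC : Stmt_C_edge) : Stmt_final := by
  obtain ⟨m, p, X, lam, T, c, hp, hX, hpos, hc, hc1, hlt, _⟩ := hH
  obtain ⟨S, _, x, B, h⟩ := hG hD hEr hEc hFp hFr hFc hFi m p hp X lam T hX hpos
  refine final_of_surf h (fun z hz j => ?_) hc hc1 hlt
  obtain ⟨b, hb⟩ := hD _ X lam T (hC m p hp).1 hX j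
  unfold pt
  rw [hb.eq z (by simpa using hz)]

end Pool.Agent.FBM
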