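import Mathlib

/-!
# Free boundary minimal submanifolds of the ball: definitions for MP_947d36_gt

`S` is a manifold with boundary of dimension `k` (modelled on the half space
`{y : 0 ≤ y 0}` of `ℝ^k`), `x : S → ℝ^n`.  Everything is expressed in the charts of `S`; the
derivatives at boundary points are derivatives within the half space.
-/

open Set Function MeasureTheory
open scoped Manifold ContDiff RealInnerProductSpace

namespace Pool.Agent.FBM

/-- `ℝ^n` with its Euclidean structure -/
abbrev Euc (n : ℕ) : Type := EuclideanSpace ℝ (Fin n)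

/-- the standard basis vectors of `ℝ^k` -/
noncomputable abbrev bs {k : ℕ} (i : Fin k) : Euc k := EuclideanSpace.single i (1 : ℝ)

/-- the Euclidean inner product -/
noncomputable def ip {n : ℕ} (v w : Euc n) : ℝ := ⟪v, w⟫

/-- the closed unit ball of `ℝ^n` -/
def cball (n : ℕ) : Set (Euc n) := Metric.closedBall 0 1

section Defs

variable {n k : ℕ} [NeZero k] {S : Type} [TopologicalSpace S]
  [ChartedSpace (EuclideanHalfSpace k) S]

/-- the local expression of `x` in the chart at `p` (a function on part of the half space) -/
noncomputable def loc (x : S → Euc n) (p : S) : Euc k → Euc n :=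
  x ∘ (extChartAt (𝓡∂ k) p).symm

/-- The derivative `∂_v` of the local expression of `x` in the chart at `p`, at the point `q`, in
direction `v` (within the half space). -/
noncomputable def d1 (x : S → Euc n) (p : S) (q v : Euc k) : Euc n :=
  fderivWithin ℝ (loc x p) (range (𝓡∂ k)) q v

/-- the second derivative `∂_w ∂_v` of the local expression, at the point `q` -/
noncomputable def d2 (x : S → Euc n) (p : S) (q v w : Euc k) : Euc n :=
  fderivWithin ℝ (fun y => d1 x p y v) (range (𝓡∂ k)) q w

/-- the matrix of the first fundamental form (the metric `x^*g`) in the chart at `p` -/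
noncomputable def gram (x : S → Euc n) (p : S) (q : Euc k) : Matrix (Fin k) (Fin k) ℝ :=
  Matrix.of fun i j => ip (d1 x p q (bs i)) (d1 x p q (bs j))

/-- The mean curvature vector `∑ g^{ij} (∂_i ∂_j x)^⊥` vanishes at the point `q` of the chart at
`p`: its inner product with every vector normal to the tangent space is zero. -/
def MeanCurvatureZero (x : S → Euc n) (p : S) (q : Euc k) : Prop :=
  ∀ N : Euc n, (∀ v : Euc k, ip (d1 x p q v) N = 0) →
    ∑ i, ∑ j, (gram x p q)⁻¹ i j * ip (d2 x p q (bs i) (bs j)) N = 0

/-- the coordinates of the point `p` in the chart at `p` -/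
noncomputable def base (k : ℕ) [NeZero k] {S : Type} [TopologicalSpace S]
    [ChartedSpace (EuclideanHalfSpace k) S] (p : S) : Euc k := extChartAt (𝓡∂ k) p p

/-- At the boundary point `p` the outward unit conormal of the boundary is the vector `x p`:
there is a tangent vector `v` (in the chart at `p`) which points out of the half space, is
orthogonal to the tangent space of the boundary and is mapped by `dx` to the unit vector
`x p`. -/
def ConormalIsPosition (k : ℕ) [NeZero k] [ChartedSpace (EuclideanHalfSpace k) S]
    (x : S → Euc n) (p : S) : Prop :=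
  ∃ v : Euc k, v 0 < 0 ∧
    (∀ w : Euc k, w 0 = 0 → ip (d1 x p (base k p) w) (d1 x p (base k p) v) = 0) ∧
    d1 x p (base k p) v = x p

/-- `x` is smooth -/
def IsSmooth (k : ℕ) [NeZero k] [ChartedSpace (EuclideanHalfSpace k) S] (x : S → Euc n) : Prop :=
  ContMDiff (𝓡∂ k) 𝓘(ℝ, Euc n) ∞ x

/-- `x` is an immersed free boundary minimal submanifold of the closed unit ball of `ℝ^n`. -/
structure IsFBMS (k : ℕ) [NeZero k] [ChartedSpace (EuclideanHalfSpace k) S]
    (x : S → Euc n) : Prop where
  /-- `x` is smooth -/
  smooth : IsSmooth k x
  /-- `x` is an immersion: its differential is injective at every point of every chart -/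
  immersion : ∀ p : S, ∀ q ∈ (extChartAt (𝓡∂ k) p).target, Injective (d1 x p q)
  /-- `x` maps into the closed unit ball -/
  ball : ∀ p, x p ∈ cball n
  /-- `x` maps the boundary into the unit sphere -/
  sphere : ∀ p ∈ (𝓡∂ k).boundary S, ‖x p‖ = 1
  /-- the mean curvature vanishes identically -/
  minimal : ∀ p : S, ∀ q ∈ (extChartAt (𝓡∂ k) p).target, MeanCurvatureZero x p q
  /-- the outward unit conormal along the boundary is the position vector -/
  free : ∀ p ∈ (𝓡∂ k).boundary S, ConormalIsPosition k x p

/-- the density `√det g_{ij}` of the volume of `x^*g` in the chart at `p` -/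
noncomputable def density (x : S → Euc n) (p : S) (q : Euc k) : ENNReal :=
  ENNReal.ofReal (Real.sqrt (gram x p q).det)

/-- `μ` is the `k`-dimensional volume measure of the metric `x^*g`: in every chart it has the
density `√det g_{ij}`. -/
def IsVolume (k : ℕ) [NeZero k] [ChartedSpace (EuclideanHalfSpace k) S] [MeasurableSpace S]
    (x : S → Euc n) (μ : Measure S) : Prop :=
  ∀ p : S, ∀ A : Set S, MeasurableSet A → A ⊆ (extChartAt (𝓡∂ k) p).source →
    μ A = ∫⁻ q in extChartAt (𝓡∂ k) p '' A, density x p q

end Defs

/-- `f` is smooth on the closed unit ball -/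
def SmoothOnBall (n : ℕ) (f : Euc n → Euc n) : Prop := ContDiffOn ℝ ∞ f (cball n)

/-- the derivative of `f` at the point `z` of the closed unit ball in direction `v` -/
noncomputable def dball {n : ℕ} (f : Euc n → Euc n) (z v : Euc n) : Euc n :=
  fderivWithin ℝ f (cball n) z v

/-- `f` restricts to a conformal diffeomorphism of the closed unit ball of `ℝ^n`: it is smooth on
the ball, has a smooth inverse there, and `f^*g = lam^2 g` with a positive function `lam`. -/
structure IsConformalDiffeo (n : ℕ) (f : Euc n → Euc n) : Prop where
  smooth : SmoothOnBall n f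
  inverse : ∃ f' : Euc n → Euc n, SmoothOnBall n f' ∧
    MapsTo f (cball n) (cball n) ∧ MapsTo f' (cball n) (cball n) ∧
    (∀ z ∈ cball n, f' (f z) = z) ∧ (∀ z ∈ cball n, f (f' z) = z)
  conformal : ∃ lam : Euc n → ℝ, ∀ z ∈ cball n, 0 < lam z ∧
    ∀ v w : Euc n, ip (dball f z v) (dball f z w) = lam z ^ 2 * ip v w

/-- The assertion of Q1 for given `n` and `k`: for every compact smooth `k`-manifold with boundary
`S`, every immersed free boundary minimal submanifold `x : S → B^n` and every conformal
diffeomorphism `f` of `B^n`, the volume of `f ∘ x` is at most the volume of `x`. -/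
def VolumeInequality (n k : ℕ) [NeZero k] : Prop :=
  ∀ (S : Type) [TopologicalSpace S] [T2Space S] [CompactSpace S]
    [ChartedSpace (EuclideanHalfSpace k) S] [IsManifold (𝓡∂ k) ∞ S]
    [MeasurableSpace S] [BorelSpace S]
    (x : S → Euc n) (f : Euc n → Euc n) (μ ν : Measure S),
    IsFBMS k x → IsConformalDiffeo n f → IsVolume k x μ → IsVolume k (f ∘ x) ν →
      ν univ ≤ μ univ

/-- The final theorem of the project. -/
def Stmt_final : Prop := ¬ VolumeInequality 3 2

end Pool.Agent.FBM
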