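import Pool.Agent.FBM.G.Geo

/-! # FBM block G: local left inverses of immersions, and patches -/

open Set Function MeasureTheory Filter Topology
open scoped Manifold ContDiff RealInnerProductSpace

namespace Pool.Agent.FBM

/-- An immersion has local smooth left inverses. -/
theorem exists_local_left_inverse {k n : ℕ} {U : Euc k → Euc n} {b : Euc k}
    (hU : ContDiffAt ℝ ∞ U b) (hi : Injective (fderiv ℝ U b)) :
    ∃ L : Euc n → Euc k, ContDiffAt ℝ ∞ L (U b) ∧ ∀ᶠ q in 𝓝 b, L (U q) = q := by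
  obtain ⟨P, hP⟩ := LinearMap.exists_leftInverse_of_injective
    (fderiv ℝ U b : Euc k →ₗ[ℝ] Euc n) (LinearMap.ker_eq_bot.mpr hi)
  set P' : Euc n →L[ℝ] Euc k := LinearMap.toContinuousLinearMap P with hP'
  have h1 : ContDiffAt ℝ ∞ (P' ∘ U) b := P'.contDiff.contDiffAt.comp b hU
  have hne : (∞ : WithTop ℕ∞) ≠ 0 := by simp
  have h2 : HasFDerivAt (P' ∘ U) ((ContinuousLinearEquiv.refl ℝ (Euc k) : Euc k →L[ℝ] Euc k)) b := by
    have h3 : HasFDerivAt (P' ∘ U) (P'.comp (fderiv ℝ U b)) b :=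
      P'.hasFDerivAt.comp b (hU.differentiableAt hne).hasFDerivAt
    have h4 : P'.comp (fderiv ℝ U b) = ((ContinuousLinearEquiv.refl ℝ (Euc k) :
        Euc k →L[ℝ] Euc k)) := by
      ext1 v
      have := congrArg (fun l : Euc k →ₗ[ℝ] Euc k => l v) hP
      simpa [hP'] using this
    rw [h4] at h3
    exact h3
  refine ⟨h1.localInverse h2 hne ∘ P', ?_, ?_⟩
  · exact (h1.to_localInverse h2 hne).comp (U b) P'.contDiff.contDiffAt
  · exact (h1.hasStrictFDerivAt' h2 hne).eventually_left_inverse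

end Pool.Agent.FBM
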