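import Pool.Agent.FBM.G.Imm

/-! # FBM block G: manifold structure from patches -/

open Set Function MeasureTheory Filter Topology
open scoped Manifold ContDiff RealInnerProductSpace

namespace Pool.Agent.FBM

/-- A chart `e` together with a smooth immersion `U` of a neighbourhood in `ℝ^k` of its target
which extends the local expression of `x`. -/
structure Pat (n k : ℕ) [NeZero k] (S : Type) [TopologicalSpace S] (x : S → Euc n) where
  e : OpenPartialHomeomorph S (EuclideanHalfSpace k)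
  U : Euc k → Euc n
  smooth : ∀ q ∈ e.target, ContDiffAt ℝ ∞ U q.1
  inj : ∀ q ∈ e.target, Injective (fderiv ℝ U q.1)
  eq : ∀ q ∈ e.target, U q.1 = x (e.symm q)

variable {n k : ℕ} [NeZero k] {S : Type} [TopologicalSpace S] {x : S → Euc n}

theorem val_symm {q : Euc k} (hq : q ∈ range (𝓡∂ k)) : ((𝓡∂ k).symm q).1 = q :=
  (𝓡∂ k).right_inv hq

/-- the transition map -/
noncomputable def Pat.tr (A B : Pat n k S x) : Euc k → Euc k :=
  (𝓡∂ k) ∘ (A.e.symm ≫ₕ B.e) ∘ (𝓡∂ k).symm

/-- its domain -/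
def Pat.td (A B : Pat n k S x) : Set (Euc k) :=
  (𝓡∂ k).symm ⁻¹' (A.e.symm ≫ₕ B.e).source ∩ range (𝓡∂ k)

theorem Pat.td_nhds (A B : Pat n k S x) {q : Euc k} (hq : q ∈ A.td B) :
    A.td B ∈ 𝓝[range (𝓡∂ k)] q := by
  unfold Pat.td
  rw [inter_comm]
  exact inter_mem self_mem_nhdsWithin (mem_nhdsWithin_of_mem_nhds
    (((A.e.symm ≫ₕ B.e).open_source.preimage (𝓡∂ k).continuous_symm).mem_nhds hq.1))

theorem Pat.mem1 (A B : Pat n k S x) {q : Euc k} (hq : q ∈ A.td B) :
    (𝓡∂ k).symm q ∈ A.e.target := by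
  have := hq.1
  simp only [mem_preimage, OpenPartialHomeomorph.trans_source,
    OpenPartialHomeomorph.symm_source] at this
  exact this.1

theorem Pat.mem2 (A B : Pat n k S x) {q : Euc k} (hq : q ∈ A.td B) :
    A.e.symm ((𝓡∂ k).symm q) ∈ B.e.source := by
  have := hq.1
  simp only [mem_preimage, OpenPartialHomeomorph.trans_source,
    OpenPartialHomeomorph.symm_source] at this
  exact this.2

theorem Pat.tr_val (A B : Pat n k S x) (q : Euc k) :
    A.tr B q = (B.e (A.e.symm ((𝓡∂ k).symm q))).1 := rfl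

theorem Pat.U_tr (A B : Pat n k S x) {q : Euc k} (hq : q ∈ A.td B) :
    B.U (A.tr B q) = A.U q := by
  rw [A.tr_val B, B.eq _ (B.e.map_source (A.mem2 B hq)), B.e.left_inv (A.mem2 B hq)]
  have h := A.eq _ (A.mem1 B hq)
  rw [val_symm hq.2] at h
  exact h.symm

theorem Pat.tr_cont (A B : Pat n k S x) : ContinuousOn (A.tr B) (A.td B) := by
  refine (𝓡∂ k).continuous.comp_continuousOn ?_
  exact (A.e.symm ≫ₕ B.e).continuousOn.comp (𝓡∂ k).continuous_symm.continuousOn
    (fun q hq => hq.1)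

/-- transition maps are locally restrictions of smooth maps -/
theorem Pat.tr_loc (A B : Pat n k S x) {q : Euc k} (hq : q ∈ A.td B) :
    ∃ L : Euc k → Euc k, ContDiffAt ℝ ∞ L q ∧ A.tr B =ᶠ[𝓝[A.td B] q] L := by
  obtain ⟨L, hL, hL'⟩ := exists_local_left_inverse
    (B.smooth _ (B.e.map_source (A.mem2 B hq))) (B.inj _ (B.e.map_source (A.mem2 B hq)))
  refine ⟨L ∘ A.U, ?_, ?_⟩
  · have h1 : ContDiffAt ℝ ∞ A.U q := by
      have := A.smooth _ (A.mem1 B hq)
      rwa [val_symm hq.2] at this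
    refine ContDiffAt.comp q ?_ h1
    rw [← A.U_tr B hq]
    exact hL
  · have h2 : Tendsto (A.tr B) (𝓝[A.td B] q) (𝓝 (A.tr B q)) := A.tr_cont B q hq
    filter_upwards [h2.eventually hL', self_mem_nhdsWithin] with y hy hy'
    rw [comp_apply, ← A.U_tr B hy', hy]

theorem Pat.tr_smooth (A B : Pat n k S x) : ContDiffOn ℝ ∞ (A.tr B) (A.td B) := by
  intro q hq
  obtain ⟨L, hL, hL'⟩ := A.tr_loc B hq
  exact hL.contDiffWithinAt.congr_of_eventuallyEq hL' (hL'.self_of_nhdsWithin hq)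

/-- the charted space structure given by a family of patches -/
@[reducible] noncomputable def chs (P : S → Pat n k S x) (hP : ∀ p, p ∈ (P p).e.source) :
    ChartedSpace (EuclideanHalfSpace k) S where
  atlas := range fun p => (P p).e
  chartAt p := (P p).e
  mem_chart_source := hP
  chart_mem_atlas p := ⟨p, rfl⟩

theorem chs_manifold (P : S → Pat n k S x) (hP : ∀ p, p ∈ (P p).e.source) :
    @IsManifold ℝ _ _ _ _ _ _ (𝓡∂ k) ∞ S _ (chs P hP) := by
  let _ := chs P hP
  apply isManifold_of_contDiffOn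
  rintro e e' ⟨p, rfl⟩ ⟨p', rfl⟩
  exact (P p).tr_smooth (P p')

end Pool.Agent.FBM
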