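import Pool.Agent.FBM.G.CPat

/-! # FBM block G: charts and patches of the pieces `PData` -/

open Set Function MeasureTheory Filter Topology
open scoped Manifold ContDiff RealInnerProductSpace

namespace Pool.Agent.FBM

variable {S : Type} [TopologicalSpace S] {x : S → Euc 3}

/-- inverse of the parametrisation -/
noncomputable def PData.psi (P : PData S x) : S → ℂ := invFunOn P.φ P.V

theorem PData.psi_mem (P : PData S x) {s : S} (hs : s ∈ P.φ '' P.V) : P.psi s ∈ P.V :=
  invFunOn_mem hs

theorem PData.φ_psi (P : PData S x) {s : S} (hs : s ∈ P.φ '' P.V) : P.φ (P.psi s) = s :=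
  invFunOn_eq hs

theorem PData.injV (P : PData S x) : InjOn P.φ P.V := P.inj.mono P.VK

theorem PData.psi_φ (P : PData S x) {w : ℂ} (hw : w ∈ P.V) : P.psi (P.φ w) = w :=
  P.injV (P.psi_mem (mem_image_of_mem _ hw)) hw (P.φ_psi (mem_image_of_mem _ hw))

theorem PData.psi_cont [T2Space S] (P : PData S x) : ContinuousOn P.psi (P.φ '' P.V) := by
  have : CompactSpace P.K := isCompact_iff_compactSpace.mp P.Kc
  have hemb : IsClosedEmbedding (fun w : P.K => P.φ w.1) :=
    Continuous.isClosedEmbedding (continuousOn_iff_continuous_domRestrict.mp P.cont)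
      (fun a b hab => Subtype.ext (P.inj a.2 b.2 hab))
  have h1 : Continuous (fun s : (P.φ '' P.V : Set S) =>
      (⟨P.psi s.1, P.VK (P.psi_mem s.2)⟩ : P.K)) := by
    rw [hemb.isInducing.continuous_iff]
    have : (fun w : P.K => P.φ w.1) ∘ (fun s : (P.φ '' P.V : Set S) =>
      (⟨P.psi s.1, P.VK (P.psi_mem s.2)⟩ : P.K)) = fun s => s.1 := by
      ext1 s
      exact P.φ_psi s.2
    rw [this]
    exact continuous_subtype_val
  rw [continuousOn_iff_continuous_domRestrict]
  exact continuous_subtype_val.comp h1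

theorem PData.hV (P : PData S x) {w : ℂ} (hw : w ∈ P.V) : -P.c ≤ w.im := by
  rw [P.VO] at hw
  exact hw.2

theorem symm_iw {c : ℝ} {w : ℂ} (h : -c ≤ w.im) : ((𝓡∂ 2).symm (iw c w)).1 = iw c w := by
  apply val_symm
  rw [range_modelWithCornersEuclideanHalfSpace]
  change 0 ≤ iw c w 0
  rw [iw_0]
  linarith

theorem PData.memV_iff (P : PData S x) (q : EuclideanHalfSpace 2) :
    cw P.c q.1 ∈ P.V ↔ cw P.c q.1 ∈ P.O := by
  constructor
  · intro h
    rw [P.VO] at h
    exact h.1
  · intro h
    rw [P.VO]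
    refine ⟨h, ?_⟩
    change -P.c ≤ (cw P.c q.1).im
    rw [cw_im]
    have := q.2
    linarith

/-- the chart of a piece -/
noncomputable def PData.e [T2Space S] (P : PData S x) :
    OpenPartialHomeomorph S (EuclideanHalfSpace 2) where
  toFun s := (𝓡∂ 2).symm (iw P.c (P.psi s))
  invFun q := P.φ (cw P.c q.1)
  source := P.φ '' P.V
  target := {q | cw P.c q.1 ∈ P.V}
  map_source' := by
    intro s hs
    change cw P.c ((𝓡∂ 2).symm (iw P.c (P.psi s))).1 ∈ P.V
    rw [symm_iw (P.hV (P.psi_mem hs)), cw_iw]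
    exact P.psi_mem hs
  map_target' := fun q hq => mem_image_of_mem _ hq
  left_inv' := by
    intro s hs
    rw [symm_iw (P.hV (P.psi_mem hs)), cw_iw, P.φ_psi hs]
  right_inv' := by
    intro q hq
    rw [P.psi_φ hq, iw_cw]
    exact (𝓡∂ 2).left_inv q
  open_source := P.img
  open_target := by
    have : {q : EuclideanHalfSpace 2 | cw P.c q.1 ∈ P.V}
        = (fun q : EuclideanHalfSpace 2 => cw P.c q.1) ⁻¹' P.O := by
      ext q
      exact P.memV_iff q
    rw [this]
    exact P.Oo.preimage ((cw_cont P.c).comp continuous_subtype_val)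
  continuousOn_toFun :=
    ((𝓡∂ 2).continuous_symm.comp (iw_cont P.c)).comp_continuousOn P.psi_cont
  continuousOn_invFun := by
    refine P.cont.comp ((cw_cont P.c).comp continuous_subtype_val).continuousOn ?_
    intro q hq
    exact P.VK hq

theorem PData.diffAt (P : PData S x) {w : ℂ} (hw : w ∈ P.V) (j : Fin 3) :
    DifferentiableAt ℂ (P.G j) w := by
  rw [P.VO] at hw
  exact (P.an j).differentiableAt (P.Oo.mem_nhds hw.1)

theorem PData.rho_pos (P : PData S x) {w : ℂ} (hw : w ∈ P.V) : 0 < P.rho w := by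
  obtain ⟨j, hj⟩ := P.imm w hw
  unfold PData.rho
  have : 0 < ∑ j, ‖deriv (P.G j) w‖ ^ 2 :=
    Finset.sum_pos' (fun i _ => by positivity) ⟨j, Finset.mem_univ j, by positivity⟩
  positivity

theorem PData.inner (P : PData S x) {q : Euc 2} (hq : cw P.c q ∈ P.V) (v w : Euc 2) :
    ⟪fderiv ℝ (reU P.G P.c) q v, fderiv ℝ (reU P.G P.c) q w⟫ = P.rho (cw P.c q) * ⟪v, w⟫ :=
  reU_inner (fun j => P.diffAt hq j) (P.conf _ hq) v w

/-- the patch of a piece -/
noncomputable def PData.pat [T2Space S] (P : PData S x) : Pat 3 2 S x where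
  e := P.e
  U := reU P.G P.c
  smooth := by
    intro q hq
    exact reU_contDiffAt P.Oo P.an ((P.memV_iff q).mp hq)
  inj := by
    intro q hq
    rw [injective_iff_map_eq_zero]
    intro v hv
    have h1 := P.inner hq v v
    rw [hv, inner_zero_left, real_inner_self_eq_norm_sq] at h1
    have h2 := P.rho_pos hq
    have h3 : ‖v‖ ^ 2 = 0 := by
      rcases mul_eq_zero.mp h1.symm with h | h
      · exact absurd h h2.ne'
      · exact h
    simpa using h3
  eq := by
    intro q hq
    ext j
    rw [reU_apply]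
    exact (P.eq _ hq j).symm

end Pool.Agent.FBM
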