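import Pool.Agent.FBM.Top
import Pool.Agent.FBM.G.Patch

/-! # FBM block G2: the statement -/

open Set Function MeasureTheory Filter Topology
open scoped Manifold ContDiff RealInnerProductSpace ENNReal

namespace Pool.Agent.FBM

/-- signs -/
def sg (b : Bool) : ℝ := if b then 1 else -1

/-- The surface of a critical map: a compact Hausdorff space `S` with `x : S → ℝ^3`, with eight
big pieces `B σ` (the interiors of the reflected copies) and a piece around every point, such
that the big pieces are disjoint and fill every piece up to a null set. -/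
structure SurfOf (X : Fin 3 → ℝ → ℝ) (S : Type) [TopologicalSpace S] (x : S → Euc 3)
    (B : (Fin 3 → Bool) → PData S x) : Prop where
  t2 : T2Space S
  cpt : CompactSpace S
  cont : Continuous x
  ball : ∀ p, ‖x p‖ ≤ 1
  bV : ∀ σ, (B σ).V = Metric.ball 0 1
  bG : ∀ σ j, (B σ).G j = fun z => (sg (σ j) : ℂ) * hz (X j) z
  disj : Pairwise (Disjoint on fun σ => (B σ).φ '' Metric.ball 0 1)
  cov : ∀ s : S, ∃ P : PData S x, s ∈ P.φ '' P.V ∧
    volume {w | w ∈ P.V ∧ ∀ σ, P.φ w ∉ (B σ).φ '' Metric.ball 0 1} = 0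

/-- G2 -/
def Stmt_G2 : Prop := Stmt_D_bd → Stmt_E_reg → Stmt_E_cor → Stmt_F_pos → Stmt_F_reg → Stmt_F_cor →
  Stmt_F_int → ∀ (m : ℕ), ∀ p ∈ Par m, ∀ X lam T, Crit (Dcfg m p.1 p.2) X lam T →
  0 < ven X X → ∃ (S : Type) (_ : TopologicalSpace S) (x : S → Euc 3)
    (B : (Fin 3 → Bool) → PData S x), SurfOf X S x B

end Pool.Agent.FBM
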