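import Pool.Agent.FBM.G.StmtG2
import Pool.Agent.FBM.F.Stmts3

/-!
# FBM block G2: construction of the surface, definitions and statements of the modules

The surface of a critical map `X` is `SSet X = {(y, z) : |z| ≤ 1, |y_i| = pt X z i}`.  Architect
helper8, after the sketch PAPER_G2.md.
-/

open Set Metric MeasureTheory Filter Topology
open FBM.F (GoodD PosP FIn)

namespace Pool.Agent.FBM
namespace G2

/-- the surface -/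
def SSet (X : Fin 3 → ℝ → ℝ) : Set (Euc 3 × ℂ) := {p | ‖p.2‖ ≤ 1 ∧ ∀ i, |p.1 i| = pt X p.2 i}

/-- the surface as a space -/
abbrev SS (X : Fin 3 → ℝ → ℝ) : Type := ↥(SSet X)

/-- the position map -/
def sx (X : Fin 3 → ℝ → ℝ) (p : SS X) : Euc 3 := p.1.1

/-- the point with coordinates `v` -/
noncomputable def mk3 (v : Fin 3 → ℝ) : Euc 3 := WithLp.toLp 2 v

/-- A piece of the surface as a map into `ℝ^3 × ℂ`. -/
structure Raw (X : Fin 3 → ℝ → ℝ) where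
  c : ℝ
  K : Set ℂ
  V : Set ℂ
  O : Set ℂ
  F : ℂ → Euc 3 × ℂ
  G : Fin 3 → ℂ → ℂ
  U : Set (Euc 3 × ℂ)
  Kc : IsCompact K
  Kh : ∀ w ∈ K, -c ≤ w.im
  VK : V ⊆ K
  Oo : IsOpen O
  VO : V = O ∩ {w | -c ≤ w.im}
  mem : ∀ w ∈ K, F w ∈ SSet X
  cont : ContinuousOn F K
  inj : InjOn F K
  Uo : IsOpen U
  img : F '' V = SSet X ∩ U
  an : ∀ j, DifferentiableOn ℂ (G j) O
  conf : ∀ w ∈ V, ∑ j, deriv (G j) w ^ 2 = 0
  imm : ∀ w ∈ V, ∃ j, deriv (G j) w ≠ 0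
  eq : ∀ w ∈ V, ∀ j, (F w).1 j = (G j w).re
  bd : ∀ w ∈ V, w.im = -c → ∑ j, (G j w).re ^ 2 = 1 ∧
    ∃ κ : ℝ, ∀ j, (deriv (G j) w).im = κ * (G j w).re

/-- MKP: a raw piece gives a piece. -/
def Stmt_MKP : Prop := ∀ (X : Fin 3 → ℝ → ℝ) (R : Raw X), (SSet X).Nonempty →
  ∃ P : PData (SS X) (sx X), P.V = R.V ∧ P.G = R.G ∧ ∀ w ∈ R.K, (P.φ w : Euc 3 × ℂ) = R.F w

/-- everything known about the critical map -/
structure GIn (D : Dat) (X : Fin 3 → ℝ → ℝ) (lam : ℝ → ℝ) (T : Fin 3 → ℝ → ℝ) : Prop where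
  good : GoodD D
  fin : FIn D X lam T
  pos : PosP D X
  regP : ∀ θ e, EdgeR D θ e → EdgeL D θ e →
    ∃ ρ G, LocReg X θ e ρ G ∧ ParR G ρ e ∧ ∃ j, deriv (G j) 0 ≠ 0
  corP : ∀ θ eR eL, EdgeR D θ eR → EdgeL D θ eL → eR ≠ eL →
    ∃ ρ G, LocCor X θ eR eL ρ G ∧ ParR G ρ eR ∧ ParI G ρ eL ∧ ∃ j, deriv (G j) 0 ≠ 0
  int : ∀ z ∈ ball (0 : ℂ) 1, ∃ j, deriv (hz (X j)) z ≠ 0

/-- GIN: the inputs from the blocks D, E, F. -/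
def Stmt_GIN : Prop := Stmt_D_bd → Stmt_E_reg → Stmt_E_cor → Stmt_F_reg → Stmt_F_cor →
  Stmt_F_int → ∀ (m : ℕ), ∀ p ∈ Par m, ∀ X lam T, Crit (Dcfg m p.1 p.2) X lam T →
  0 < ven X X → GIn (Dcfg m p.1 p.2) X lam T

/-- folding of a coordinate at an edge: at a wall the coordinate is reflected -/
def fI : Edge → ℝ → ℝ
  | .W _, t => |t|
  | .H, t => t

/-- the same, `none` means no edge -/
def fR : Option Edge → ℝ → ℝ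
  | none, t => t
  | some e, t => fI e t

/-- The fold map: reflection into the fundamental domain.  The edge `eR` is on the real axis, the
edge `eL` (if present: corner coordinate) on the imaginary axis. -/
def fold (eR : Edge) (eL : Option Edge) (w : ℂ) : ℂ := ⟨fR eL w.re, fI eR w.im⟩

/-- the closed parameter domain -/
def KK (eR : Edge) (eL : Option Edge) (r : ℝ) : Set ℂ :=
  {w | ‖w‖ ≤ r ∧ (eR = .H → 0 ≤ w.im) ∧ (eL = some .H → 0 ≤ w.re)}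

/-- the parameter domain -/
def VV (eR : Edge) (eL : Option Edge) (r : ℝ) : Set ℂ :=
  {w | ‖w‖ < r ∧ (eR = .H → 0 ≤ w.im) ∧ (eL = some .H → 0 ≤ w.re)}

/-- the fundamental domain: half disc or quarter disc -/
def AA (eL : Option Edge) (r : ℝ) : Set ℂ := {w | ‖w‖ < r ∧ 0 ≤ w.im ∧ (eL ≠ none → 0 ≤ w.re)}

/-- the coordinate of the disc -/
noncomputable def gc (θ : ℝ) (eL : Option Edge) (w : ℂ) : ℂ :=
  match eL with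
  | none => psi θ w
  | some _ => psi θ (w ^ 2)

/-- The properties of the coordinate `psi` used in block G2. -/
structure PsiQ : Prop where
  inj : ∀ θ : ℝ, InjOn (psi θ) (ball 0 1)
  cont : ∀ θ : ℝ, ContinuousOn (psi θ) (ball 0 1)
  op : ∀ (θ r : ℝ), 0 < r → r ≤ 1 → IsOpen (psi θ '' ball 0 r)
  nle : ∀ (θ : ℝ) (w : ℂ), ‖w‖ < 1 → (‖psi θ w‖ ≤ 1 ↔ 0 ≤ w.im)
  nlt : ∀ (θ : ℝ) (w : ℂ), ‖w‖ < 1 → (‖psi θ w‖ < 1 ↔ 0 < w.im)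
  re : ∀ (θ x : ℝ), psi θ x = Complex.exp ((θ + 2 * Real.arctan x : ℝ) * Complex.I)

/-- PSQ -/
def Stmt_PSQ : Prop := PsiQ

/-- GCN: the coordinate map `gc` is injective and continuous on the fundamental domain, and the
image of the fundamental domain is relatively open in the closed disc. -/
def Stmt_GCN : Prop := ∀ (θ : ℝ) (eL : Option Edge) (r : ℝ), 0 < r → r ≤ 1 →
  InjOn (gc θ eL) (AA eL 1) ∧ ContinuousOn (gc θ eL) (AA eL 1) ∧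
  (∃ N : Set ℂ, IsOpen N ∧ closedBall 0 1 ∩ N = gc θ eL '' AA eL r) ∧
  (∀ w ∈ AA eL 1, ‖gc θ eL w‖ ≤ 1 ∧
    (‖gc θ eL w‖ = 1 ↔ w.im = 0 ∨ (eL ≠ none ∧ w.re = 0)))

/-- Sign pattern and values of an extension `G` on the parameter domain of radius `r`. -/
structure Sgn (X : Fin 3 → ℝ → ℝ) (θ : ℝ) (eR : Edge) (eL : Option Edge) (r : ℝ)
    (G : Fin 3 → ℂ → ℂ) : Prop where
  cont : ∀ j, ContinuousOn (G j) (closedBall 0 r)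
  abs : ∀ w ∈ KK eR eL r, ∀ j, |(G j w).re| = pt X (gc θ eL (fold eR eL w)) j
  sR : ∀ w ∈ KK eR eL r, ∀ j, eR = .W j →
    (0 < (G j w).re ↔ 0 < w.im) ∧ ((G j w).re < 0 ↔ w.im < 0)
  sL : ∀ w ∈ KK eR eL r, ∀ j, eL = some (.W j) →
    (0 < (G j w).re ↔ 0 < w.re) ∧ ((G j w).re < 0 ↔ w.re < 0)
  sP : ∀ w ∈ KK eR eL r, ∀ j, eR ≠ .W j → eL ≠ some (.W j) → 0 < (G j w).re

/-- the parametrisation -/
noncomputable def FF (θ : ℝ) (eR : Edge) (eL : Option Edge) (s : Fin 3 → ℝ) (G : Fin 3 → ℂ → ℂ)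
    (w : ℂ) : Euc 3 × ℂ :=
  (mk3 fun j => s j * (G j w).re, gc θ eL (fold eR eL w))

/-- FLD: the folding lemma. -/
def Stmt_FLD : Prop := ∀ (X : Fin 3 → ℝ → ℝ) (θ : ℝ) (eR : Edge) (eL : Option Edge) (r : ℝ)
  (G : Fin 3 → ℂ → ℂ) (s : Fin 3 → ℝ), 0 < r → r < 1 → eL ≠ some eR →
  Sgn X θ eR eL r G → (∀ j, s j = 1 ∨ s j = -1) →
    IsCompact (KK eR eL r) ∧
    (∀ w ∈ KK eR eL r, FF θ eR eL s G w ∈ SSet X) ∧
    ContinuousOn (FF θ eR eL s G) (KK eR eL r) ∧ InjOn (FF θ eR eL s G) (KK eR eL r) ∧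
    (∃ U, IsOpen U ∧ FF θ eR eL s G '' VV eR eL r = SSet X ∩ U) ∧
    volume {w | w ∈ VV eR eL r ∧ ‖(FF θ eR eL s G w).2‖ = 1} = 0

/-- FL0: a point of the surface over `e^{iθ}` is the point with parameter `0` for suitable
signs. -/
def Stmt_FL0 : Prop := ∀ (X : Fin 3 → ℝ → ℝ) (θ : ℝ) (eR : Edge) (eL : Option Edge) (r : ℝ)
  (G : Fin 3 → ℂ → ℂ), 0 < r → r < 1 → Sgn X θ eR eL r G →
  ∀ p ∈ SSet X, p.2 = Complex.exp (θ * Complex.I) →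
    ∃ s : Fin 3 → ℝ, (∀ j, s j = 1 ∨ s j = -1) ∧ FF θ eR eL s G 0 = p

/-- EDP: positivity on the edges near a boundary point. -/
def Stmt_EDP : Prop := ∀ (D : Dat) (X : Fin 3 → ℝ → ℝ), GoodD D → PosP D X →
  ∀ (θ : ℝ) (eR eL : Edge), EdgeR D θ eR → EdgeL D θ eL →
    (∀ j, eR ≠ .W j → eL ≠ .W j → 0 < pt X (Complex.exp (θ * Complex.I)) j) ∧
    ∃ δ > 0, (∀ t : ℝ, θ < t → t < θ + δ → ∀ j, eR ≠ .W j →
        0 < pt X (Complex.exp (t * Complex.I)) j) ∧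
      (∀ t : ℝ, θ - δ < t → t < θ → ∀ j, eL ≠ .W j →
        0 < pt X (Complex.exp (t * Complex.I)) j)

/-- SGR: the sign pattern at interior points of the edges. -/
def Stmt_SGR : Prop := ∀ (D : Dat) (X : Fin 3 → ℝ → ℝ) (lam : ℝ → ℝ) (T : Fin 3 → ℝ → ℝ),
  GIn D X lam T → ∀ (θ : ℝ) (e : Edge) (ρ : ℝ) (G : Fin 3 → ℂ → ℂ), EdgeR D θ e → EdgeL D θ e →
    LocReg X θ e ρ G → ∃ r0, 0 < r0 ∧ r0 < ρ ∧ ∀ r, 0 < r → r ≤ r0 → Sgn X θ e none r G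

/-- SGC: the sign pattern at corners and junctions. -/
def Stmt_SGC : Prop := ∀ (D : Dat) (X : Fin 3 → ℝ → ℝ) (lam : ℝ → ℝ) (T : Fin 3 → ℝ → ℝ),
  GIn D X lam T → ∀ (θ : ℝ) (eR eL : Edge) (ρ : ℝ) (G : Fin 3 → ℂ → ℂ), EdgeR D θ eR →
    EdgeL D θ eL → eR ≠ eL → LocCor X θ eR eL ρ G →
    ∃ r0, 0 < r0 ∧ r0 < ρ ∧ ∀ r, 0 < r → r ≤ r0 → Sgn X θ eR (some eL) r G

/-- CNR: conformality and immersion at interior points of the edges. -/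
def Stmt_CNR : Prop := ∀ (D : Dat) (X : Fin 3 → ℝ → ℝ) (lam : ℝ → ℝ) (T : Fin 3 → ℝ → ℝ),
  GIn D X lam T → ∀ (θ : ℝ) (e : Edge) (ρ : ℝ) (G : Fin 3 → ℂ → ℂ), LocReg X θ e ρ G →
    (∃ j, deriv (G j) 0 ≠ 0) → (∀ w : ℂ, ‖w‖ < ρ → ∑ j, deriv (G j) w ^ 2 = 0) ∧
      ∃ r0, 0 < r0 ∧ r0 < ρ ∧ ∀ w : ℂ, ‖w‖ ≤ r0 → ∃ j, deriv (G j) w ≠ 0

/-- CNC: conformality and immersion at corners and junctions. -/
def Stmt_CNC : Prop := ∀ (D : Dat) (X : Fin 3 → ℝ → ℝ) (lam : ℝ → ℝ) (T : Fin 3 → ℝ → ℝ),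
  GIn D X lam T → ∀ (θ : ℝ) (eR eL : Edge) (ρ : ℝ) (G : Fin 3 → ℂ → ℂ), LocCor X θ eR eL ρ G →
    (∃ j, deriv (G j) 0 ≠ 0) → (∀ w : ℂ, ‖w‖ < ρ → ∑ j, deriv (G j) w ^ 2 = 0) ∧
      ∃ r0, 0 < r0 ∧ r0 < ρ ∧ ∀ w : ℂ, ‖w‖ ≤ r0 → ∃ j, deriv (G j) w ≠ 0

/-- BIG: the big pieces. -/
def Stmt_BIG : Prop := ∀ (D : Dat) (X : Fin 3 → ℝ → ℝ) (lam : ℝ → ℝ) (T : Fin 3 → ℝ → ℝ),
  GIn D X lam T → ∀ s : Fin 3 → ℝ, (∀ j, s j = 1 ∨ s j = -1) →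
    ∃ R : Raw X, R.V = ball 0 1 ∧ R.K = closedBall 0 1 ∧
      (∀ w, R.F w = (mk3 fun j => s j * pt X w j, w)) ∧
      R.G = fun j z => (s j : ℂ) * hz (X j) z

/-- REG: the pieces at interior points of the edges. -/
def Stmt_REG : Prop := ∀ (D : Dat) (X : Fin 3 → ℝ → ℝ) (lam : ℝ → ℝ) (T : Fin 3 → ℝ → ℝ),
  GIn D X lam T → ∀ (θ : ℝ) (e : Edge), EdgeR D θ e → EdgeL D θ e →
    ∀ p ∈ SSet X, p.2 = Complex.exp (θ * Complex.I) →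
      ∃ R : Raw X, p ∈ R.F '' R.V ∧ volume {w | w ∈ R.V ∧ ‖(R.F w).2‖ = 1} = 0

/-- CO1: the pieces at corners, and at junctions with the free edge on the right. -/
def Stmt_CO1 : Prop := ∀ (D : Dat) (X : Fin 3 → ℝ → ℝ) (lam : ℝ → ℝ) (T : Fin 3 → ℝ → ℝ),
  GIn D X lam T → ∀ (θ : ℝ) (eR : Edge) (j : Fin 3), EdgeR D θ eR → EdgeL D θ (.W j) →
    eR ≠ .W j → ∀ p ∈ SSet X, p.2 = Complex.exp (θ * Complex.I) →
      ∃ R : Raw X, p ∈ R.F '' R.V ∧ volume {w | w ∈ R.V ∧ ‖(R.F w).2‖ = 1} = 0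

/-- CO2: the pieces at junctions with the free edge on the left (rotated coordinate). -/
def Stmt_CO2 : Prop := ∀ (D : Dat) (X : Fin 3 → ℝ → ℝ) (lam : ℝ → ℝ) (T : Fin 3 → ℝ → ℝ),
  GIn D X lam T → ∀ (θ : ℝ) (i : Fin 3), EdgeR D θ (.W i) → EdgeL D θ .H →
    ∀ p ∈ SSet X, p.2 = Complex.exp (θ * Complex.I) →
      ∃ R : Raw X, p ∈ R.F '' R.V ∧ volume {w | w ∈ R.V ∧ ‖(R.F w).2‖ = 1} = 0

/-- CPT: compactness of the surface. -/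
def Stmt_CPT : Prop := ∀ (D : Dat) (X : Fin 3 → ℝ → ℝ), PosP D X →
  IsCompact (SSet X) ∧ (SSet X).Nonempty ∧ ∀ p ∈ SSet X, ‖p.1‖ ≤ 1

/-- SRF: the surface (from MKP, CPT, BIG, REG, CO1, CO2). -/
def Stmt_SRF : Prop := ∀ (D : Dat) (X : Fin 3 → ℝ → ℝ) (lam : ℝ → ℝ) (T : Fin 3 → ℝ → ℝ),
  GIn D X lam T → ∃ B : (Fin 3 → Bool) → PData (SS X) (sx X), SurfOf X (SS X) (sx X) B

end G2
end Pool.Agent.FBM
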