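import Pool.Agent.FBM.G.Geo

/-! # FBM block G: uniqueness of the volume measure (a check of the definitions) -/

open Set Function MeasureTheory Filter Topology
open scoped Manifold ContDiff RealInnerProductSpace ENNReal

namespace Pool.Agent.FBM

/-- There is at most one volume measure. -/
theorem IsVolume.unique {n k : ℕ} [NeZero k] {S : Type} [TopologicalSpace S] [CompactSpace S]
    [ChartedSpace (EuclideanHalfSpace k) S] [MeasurableSpace S] [BorelSpace S] {x : S → Euc n}
    {μ ν : Measure S} (hμ : IsVolume k x μ) (hν : IsVolume k x ν) : μ = ν := by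
  obtain ⟨t, ht, hcov⟩ := countable_cover_nhds
    (fun p : S => (isOpen_extChartAt_source (I := 𝓡∂ k) p).mem_nhds (mem_extChartAt_source p))
  rcases isEmpty_or_nonempty S with hS | hS
  · exact Subsingleton.elim μ ν
  have htn : t.Nonempty := by
    by_contra h
    rw [not_nonempty_iff_eq_empty] at h
    rw [h] at hcov
    obtain ⟨s⟩ := hS
    have := hcov.symm ▸ mem_univ s
    simp at this
  obtain ⟨f, hf⟩ := ht.exists_eq_range htn
  set src : ℕ → Set S := fun i => (extChartAt (𝓡∂ k) (f i)).source with hsrc
  have hcov' : ⋃ i, src i = univ := by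
    rw [← hcov, hf]
    simp [hsrc]
  have hmeas : ∀ i, MeasurableSet (disjointed src i) := fun i =>
    MeasurableSet.disjointed
      (fun j => (isOpen_extChartAt_source (I := 𝓡∂ k) (f j)).measurableSet) i
  ext B hB
  have h1 : B = ⋃ i, B ∩ disjointed src i := by
    rw [← inter_iUnion, iUnion_disjointed, hcov', inter_univ]
  have h2 : Pairwise (Disjoint on fun i => B ∩ disjointed src i) := by
    intro i j hij
    exact ((disjoint_disjointed src) hij).mono inter_subset_right inter_subset_right
  rw [h1, measure_iUnion h2 fun i => hB.inter (hmeas i),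
    measure_iUnion h2 fun i => hB.inter (hmeas i)]
  refine tsum_congr fun i => ?_
  have h3 : B ∩ disjointed src i ⊆ (extChartAt (𝓡∂ k) (f i)).source :=
    inter_subset_right.trans (disjointed_subset src i)
  rw [hμ (f i) _ (hB.inter (hmeas i)) h3, hν (f i) _ (hB.inter (hmeas i)) h3]

end Pool.Agent.FBM
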